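import Mathlib

/-!
# Generic structures in finite relational languages: existence

Relational structures are given by the relation symbols `S` and their arities `ar`.
For a universal class `Good` of structures with one-point amalgamation there is a structure on the
natural numbers which satisfies all one-point extension axioms.
-/

set_option autoImplicit false

namespace Pool.Agent.H702R3.Gen

/-- a relational structure on `α` -/
abbrev Str (S : Type) (ar : S → ℕ) (α : Type) := ∀ s : S, (Fin (ar s) → α) → Prop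

variable {S : Type} {ar : S → ℕ}

/-- pulling back a structure along a map -/
def Str.pull {α β : Type} (M : Str S ar α) (f : β → α) : Str S ar β := fun s t => M s (f ∘ t)

theorem Str.pull_pull {α β γ : Type} (M : Str S ar α) (f : β → α) (g : γ → β) :
    (M.pull f).pull g = M.pull (f ∘ g) := rfl

theorem Str.pull_id {α : Type} (M : Str S ar α) : M.pull id = M := rfl

/-- adding a point to a tuple -/
def ocons {α κ : Type} (x : κ → α) (a : α) : Option κ → α := fun o => o.elim a x

@[simp] theorem ocons_some {α κ : Type} (x : κ → α) (a : α) (i : κ) : ocons x a (some i) = x i :=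
  rfl

@[simp] theorem ocons_none {α κ : Type} (x : κ → α) (a : α) : ocons x a none = a := rfl

theorem ocons_comp_some {α κ : Type} (x : κ → α) (a : α) : ocons x a ∘ some = x := rfl

theorem ocons_injective {α κ : Type} {x : κ → α} {a : α} (hx : Function.Injective x)
    (ha : ∀ i, x i ≠ a) : Function.Injective (ocons x a) := by
  rintro (_ | i) (_ | j) h
  · rfl
  · exact absurd h.symm (ha j)
  · exact absurd h (ha i)
  · exact congrArg some (hx h)

/-- the one-point extension axioms -/
def Ext (Good : ∀ {α : Type}, Str S ar α → Prop) {α : Type} (M : Str S ar α) : Prop :=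
  ∀ (k : ℕ) (x : Fin k → α), Function.Injective x → ∀ K : Str S ar (Option (Fin k)), Good K →
    K.pull some = M.pull x → ∃ b, (∀ i, x i ≠ b) ∧ M.pull (ocons x b) = K

/-- a universal class with one-point amalgamation -/
structure IsAmalg (Good : ∀ {α : Type}, Str S ar α → Prop) : Prop where
  pull : ∀ {α β : Type} (M : Str S ar α) (f : β → α), Function.Injective f → Good M →
    Good (M.pull f)
  fin : ∀ {α : Type} (M : Str S ar α),
    (∀ (k : ℕ) (f : Fin k → α), Function.Injective f → Good (M.pull f)) → Good M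
  one : ∃ M : Str S ar (Option (Fin 0)), Good M
  amalg : ∀ {α : Type} (M : Str S ar α), Good M → ∀ (k : ℕ) (x : Fin k → α),
    Function.Injective x → ∀ K : Str S ar (Option (Fin k)), Good K → K.pull some = M.pull x →
    ∃ M' : Str S ar (Option α), Good M' ∧ M'.pull some = M ∧ M'.pull (Option.map x) = K

/-- extension requests -/
abbrev Req (S : Type) (ar : S → ℕ) := Σ k : ℕ, (Fin k → ℕ) × Str S ar (Option (Fin k))

instance [Finite S] : Countable (Req S ar) := by
  unfold Req Str
  infer_instance

/-- validity of a request at a stage -/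
def Valid (Good : ∀ {α : Type}, Str S ar α → Prop) (n : ℕ) (M : Str S ar ℕ) (r : Req S ar) :
    Prop :=
  (∀ i, r.2.1 i < n) ∧ Function.Injective r.2.1 ∧ Good r.2.2 ∧ r.2.2.pull some = M.pull r.2.1

theorem step (har : ∀ s, 0 < ar s) {Good : ∀ {α : Type}, Str S ar α → Prop} (hG : IsAmalg Good)
    (n : ℕ)
    (M : Str S ar ℕ) (hM : Good (M.pull (fun i : Fin n => (i : ℕ)))) (r : Req S ar) :
    ∃ M' : Str S ar ℕ, Good (M'.pull (fun i : Fin (n + 1) => (i : ℕ))) ∧
      M'.pull (fun i : Fin n => (i : ℕ)) = M.pull (fun i : Fin n => (i : ℕ)) ∧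
      (Valid Good n M r → M'.pull (ocons r.2.1 n) = r.2.2) := by
  classical
  -- the general step
  have main : ∀ (k : ℕ) (x : Fin k → Fin n), Function.Injective x →
      ∀ K : Str S ar (Option (Fin k)), Good K →
      K.pull some = M.pull (fun i => (x i : ℕ)) →
      ∃ M' : Str S ar ℕ, Good (M'.pull (fun i : Fin (n + 1) => (i : ℕ))) ∧
      M'.pull (fun i : Fin n => (i : ℕ)) = M.pull (fun i : Fin n => (i : ℕ)) ∧
      M'.pull (ocons (fun i => (x i : ℕ)) n) = K := by
    intro k x hx K hK hKM
    obtain ⟨M', hM', h1, h2⟩ := hG.amalg (M.pull (fun i : Fin n => (i : ℕ))) hM k x hx K hK hKM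
    let g : ℕ → Option (Fin n) := fun i => if h : i < n then some ⟨i, h⟩ else none
    have hg : ∀ i : Fin n, g i = some i := fun i => by simp [g]
    have hgn : g n = none := by simp [g]
    refine ⟨M'.pull g, ?_, ?_, ?_⟩
    · refine hG.pull M' (g ∘ fun i : Fin (n + 1) => (i : ℕ)) ?_ hM'
      intro i j hij
      simp only [Function.comp_apply, g] at hij
      have hi := i.2
      have hj := j.2
      by_cases h3 : (i : ℕ) < n <;> by_cases h4 : (j : ℕ) < n <;> simp [h3, h4] at hij
      · exact Fin.ext hij
      · exact Fin.ext (by omega)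
    · rw [Str.pull_pull]
      have : (g ∘ fun i : Fin n => (i : ℕ)) = some := by
        funext i
        exact hg i
      rw [this, h1]
    · rw [Str.pull_pull, ← h2]
      congr 1
      funext o
      cases o with
      | none => exact hgn
      | some i => exact hg (x i)
  by_cases hv : Valid Good n M r
  · obtain ⟨h1, h2, h3, h4⟩ := hv
    obtain ⟨M', a, b, c⟩ := main r.1 (fun i => ⟨r.2.1 i, h1 i⟩)
      (fun i j hij => h2 (by simpa using hij)) r.2.2 h3 h4
    exact ⟨M', a, b, fun _ => c⟩
  · obtain ⟨K, hK⟩ := hG.one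
    obtain ⟨M', a, b, c⟩ := main 0 Fin.elim0 (fun i => i.elim0) K hK
      (by
        funext s t
        exact (t ⟨0, har s⟩).elim0)
    exact ⟨M', a, b, fun h => absurd h hv⟩

/-- the stages -/
noncomputable def stage (har : ∀ s, 0 < ar s) {Good : ∀ {α : Type}, Str S ar α → Prop}
    (hG : IsAmalg Good) (h0 : ∃ M : Str S ar ℕ, Good (M.pull (fun i : Fin 0 => (i : ℕ))))
    (ρ : ℕ → Req S ar) :
    (n : ℕ) → {M : Str S ar ℕ // Good (M.pull (fun i : Fin n => (i : ℕ)))}
  | 0 => ⟨h0.choose, h0.choose_spec⟩
  | (n + 1) => ⟨(step har hG n (stage har hG h0 ρ n).1 (stage har hG h0 ρ n).2 (ρ n)).choose,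
      (step har hG n (stage har hG h0 ρ n).1 (stage har hG h0 ρ n).2 (ρ n)).choose_spec.1⟩

/-- There is a structure on the natural numbers in the class satisfying the extension axioms. -/
theorem exists_generic [Finite S] (har : ∀ s, 0 < ar s)
    {Good : ∀ {α : Type}, Str S ar α → Prop} (hG : IsAmalg Good) :
    ∃ M : Str S ar ℕ, Good M ∧ Ext Good M := by
  classical
  have h0 : ∃ M : Str S ar ℕ, Good (M.pull (fun i : Fin 0 => (i : ℕ))) := by
    obtain ⟨K, hK⟩ := hG.one
    refine ⟨K.pull (fun _ => none), ?_⟩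
    have := hG.pull K (fun i : Fin 0 => none) (fun i => i.elim0) hK
    exact this
  have : Nonempty (Req S ar) := ⟨⟨0, Fin.elim0, fun _ _ => True⟩⟩
  obtain ⟨f, hf⟩ := exists_surjective_nat (Req S ar)
  let ρ : ℕ → Req S ar := fun n => f (Nat.unpair n).1
  let St := stage har hG h0 ρ
  have hSt : ∀ n, (St (n + 1)).1.pull (fun i : Fin n => (i : ℕ)) =
      (St n).1.pull (fun i : Fin n => (i : ℕ)) ∧
      (Valid Good n (St n).1 (ρ n) → (St (n + 1)).1.pull (ocons (ρ n).2.1 n) = (ρ n).2.2) :=
    fun n => (step har hG n (St n).1 (St n).2 (ρ n)).choose_spec.2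
  -- agreement
  have agree : ∀ n m, n ≤ m → ∀ (s : S) (t : Fin (ar s) → ℕ), (∀ i, t i < n) →
      ((St m).1 s t ↔ (St n).1 s t) := by
    intro n m hnm
    induction m, hnm using Nat.le_induction with
    | base => exact fun s t _ => Iff.rfl
    | succ m hm ih =>
      intro s t ht
      rw [← ih s t ht]
      have := congrFun (congrFun (hSt m).1 s) (fun i => (⟨t i, (ht i).trans_le hm⟩ : Fin m))
      exact iff_of_eq this
  let b : ∀ s, (Fin (ar s) → ℕ) → ℕ := fun s t => Finset.univ.sup t + 1
  have hb : ∀ s t i, t i < b s t := fun s t i => Nat.lt_succ_of_le (Finset.le_sup (Finset.mem_univ i))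
  let M : Str S ar ℕ := fun s t => (St (b s t)).1 s t
  have hM : ∀ n (s : S) (t : Fin (ar s) → ℕ), (∀ i, t i < n) → (M s t ↔ (St n).1 s t) := by
    intro n s t ht
    rcases le_total (b s t) n with h | h
    · exact (agree _ _ h s t (hb s t)).symm
    · exact agree _ _ h s t ht
  have hMpull : ∀ (n : ℕ) {κ : Type} (x : κ → ℕ), (∀ i, x i < n) → M.pull x = (St n).1.pull x := by
    intro n κ x hx
    funext s t
    exact propext (hM n s _ fun i => hx _)
  refine ⟨M, ?_, ?_⟩
  · refine hG.fin M fun k x hx => ?_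
    have hbd : ∀ i, x i < Finset.univ.sup x + 1 :=
      fun i => Nat.lt_succ_of_le (Finset.le_sup (Finset.mem_univ i))
    rw [hMpull _ x hbd]
    have := hG.pull _ (fun i : Fin k => (⟨x i, hbd i⟩ : Fin (Finset.univ.sup x + 1)))
      (fun i j hij => hx (by simpa using hij)) (St (Finset.univ.sup x + 1)).2
    exact this
  · intro k x hx K hK hKM
    obtain ⟨m, hm⟩ := hf ⟨k, x, K⟩
    set n := Nat.pair m (Finset.univ.sup x + 1) with hn
    have hρ : ρ n = ⟨k, x, K⟩ := by
      simp only [ρ, hn, Nat.unpair_pair, hm]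
    have hbd : ∀ i, x i < n := fun i =>
      lt_of_lt_of_le (Nat.lt_succ_of_le (Finset.le_sup (Finset.mem_univ i))) (Nat.right_le_pair _ _)
    have hval : Valid Good n (St n).1 (ρ n) := by
      rw [hρ]
      exact ⟨hbd, hx, hK, by rw [hKM, hMpull n x hbd]⟩
    have h := (hSt n).2 hval
    rw [hρ] at h
    refine ⟨n, fun i => (hbd i).ne, ?_⟩
    rw [hMpull (n + 1) (ocons x n), h]
    rintro (_ | i)
    · exact Nat.lt_succ_self n
    · exact (hbd i).trans (Nat.lt_succ_self n)

end Pool.Agent.H702R3.Gen
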