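import Pool.Agent.H702R3.Gen.Cls

/-!
# The quantifier-free types used for the counterexample on weak orthogonality
-/

set_option autoImplicit false

namespace Pool.Agent.H702R3.Gen.Cls

/-- building a structure -/
def mk {α : Type} (fX fC fY fV : α → Prop) (fI fN : α → α → Prop) (fR : α → α → α → Prop) :
    Str Sy ar α := fun s => match s with
  | Sy.X => fun t => fX (t (0 : Fin 1))
  | Sy.C => fun t => fC (t (0 : Fin 1))
  | Sy.Y => fun t => fY (t (0 : Fin 1))
  | Sy.V => fun t => fV (t (0 : Fin 1))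
  | Sy.I => fun t => fI (t (0 : Fin 2)) (t (1 : Fin 2))
  | Sy.N => fun t => fN (t (0 : Fin 2)) (t (1 : Fin 2))
  | Sy.R => fun t => fR (t (0 : Fin 3)) (t (1 : Fin 3)) (t (2 : Fin 3))

section mk
variable {α : Type} {fX fC fY fV : α → Prop} {fI fN : α → α → Prop} {fR : α → α → α → Prop}

theorem uX_mk (a : α) : uX (mk fX fC fY fV fI fN fR) a ↔ fX a := Iff.rfl
theorem uC_mk (a : α) : uC (mk fX fC fY fV fI fN fR) a ↔ fC a := Iff.rfl
theorem uY_mk (a : α) : uY (mk fX fC fY fV fI fN fR) a ↔ fY a := Iff.rfl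
theorem uV_mk (a : α) : uV (mk fX fC fY fV fI fN fR) a ↔ fV a := Iff.rfl
theorem bI_mk (a b : α) : bI (mk fX fC fY fV fI fN fR) a b ↔ fI a b := Iff.rfl
theorem bN_mk (a b : α) : bN (mk fX fC fY fV fI fN fR) a b ↔ fN a b := Iff.rfl
theorem tR_mk (a b c : α) : tR (mk fX fC fY fV fI fN fR) a b c ↔ fR a b c := Iff.rfl

end mk

/-- a structure in the class is determined by the sorts, the incidence with elements of `V`, the
relation `N` on `X × C` and the relation `R` on triples of `X × C × Y` satisfying `N` -/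
theorem good_ext {α : Type} {Z Z' : Str Sy ar α} (hZ : Good Z) (hZ' : Good Z')
    (hX : ∀ a, uX Z a ↔ uX Z' a) (hC : ∀ a, uC Z a ↔ uC Z' a)
    (hY : ∀ a, uY Z a ↔ uY Z' a) (hV : ∀ a, uV Z a ↔ uV Z' a)
    (hI : ∀ a b, uV Z b → (bI Z a b ↔ bI Z' a b))
    (hN : ∀ a b, uX Z a → uC Z b → (bN Z a b ↔ bN Z' a b))
    (hR : ∀ a b c, uX Z a → uC Z b → uY Z c → bN Z a b → (tR Z a b c ↔ tR Z' a b c)) : Z = Z' := by
  have hN' : ∀ a b, bN Z a b ↔ bN Z' a b := by
    intro a b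
    constructor
    · intro h
      exact (hN a b ((hZ a b a a).N1 h) ((hZ a b a a).N2 h)).1 h
    · intro h
      exact (hN a b ((hX a).2 ((hZ' a b a a).N1 h)) ((hC b).2 ((hZ' a b a a).N2 h))).2 h
  refine str_ext hX hC hY hV ?_ hN' ?_
  · intro a b
    constructor
    · intro h
      exact (hI a b ((hZ a b a a).I1 h)).1 h
    · intro h
      exact (hI a b ((hV b).2 ((hZ' a b a a).I1 h))).2 h
  · intro a b c
    constructor
    · intro h
      have h1 := (hZ a b c a).R1 h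
      exact (hR a b c ((hZ a b a a).N1 h1) ((hZ a b a a).N2 h1) ((hZ a b c a).R2 h) h1).1 h
    · intro h
      have h1 := (hN' a b).2 ((hZ' a b c a).R1 h)
      exact (hR a b c ((hZ a b a a).N1 h1) ((hZ a b a a).N2 h1)
        ((hY c).2 ((hZ' a b c a).R2 h)) h1).2 h

/-- three points -/
inductive Pt
  | x | c | y

instance : Finite Pt :=
  Finite.of_surjective (fun i : Fin 3 => match i with
    | 0 => Pt.x
    | 1 => Pt.c
    | 2 => Pt.y) (fun s => by
      cases s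
      · exact ⟨0, rfl⟩
      · exact ⟨1, rfl⟩
      · exact ⟨2, rfl⟩)

section big

variable {U : Type} (M : Str Sy ar U) (ρ : Prop)

/-- the sort `X` -/
def kX : Pt ⊕ U → Prop
  | Sum.inl Pt.x => True
  | Sum.inl Pt.c => False
  | Sum.inl Pt.y => False
  | Sum.inr u => uX M u
/-- the sort `C` -/
def kC : Pt ⊕ U → Prop
  | Sum.inl Pt.x => False
  | Sum.inl Pt.c => True
  | Sum.inl Pt.y => False
  | Sum.inr u => uC M u
/-- the sort `Y` -/
def kY : Pt ⊕ U → Prop
  | Sum.inl Pt.x => False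
  | Sum.inl Pt.c => False
  | Sum.inl Pt.y => True
  | Sum.inr u => uY M u
/-- the sort `V` -/
def kV : Pt ⊕ U → Prop
  | Sum.inl _ => False
  | Sum.inr u => uV M u
/-- incidence -/
def kI : Pt ⊕ U → Pt ⊕ U → Prop
  | _, Sum.inl _ => False
  | Sum.inl Pt.x, Sum.inr v => uV M v
  | Sum.inl Pt.c, Sum.inr _ => False
  | Sum.inl Pt.y, Sum.inr v => uV M v
  | Sum.inr u, Sum.inr v => bI M u v
/-- the relation `N` -/
def kN : Pt ⊕ U → Pt ⊕ U → Prop
  | Sum.inl Pt.x, Sum.inl Pt.x => False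
  | Sum.inl Pt.x, Sum.inl Pt.c => True
  | Sum.inl Pt.x, Sum.inl Pt.y => False
  | Sum.inl Pt.x, Sum.inr u => uC M u
  | Sum.inl Pt.c, _ => False
  | Sum.inl Pt.y, _ => False
  | Sum.inr _, Sum.inl _ => False
  | Sum.inr u, Sum.inr v => bN M u v
/-- the relation `R` -/
def kR : Pt ⊕ U → Pt ⊕ U → Pt ⊕ U → Prop
  | Sum.inl Pt.x, Sum.inl Pt.c, Sum.inl Pt.x => False
  | Sum.inl Pt.x, Sum.inl Pt.c, Sum.inl Pt.c => False
  | Sum.inl Pt.x, Sum.inl Pt.c, Sum.inl Pt.y => ρ
  | Sum.inl Pt.x, Sum.inl Pt.c, Sum.inr w => uY M w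
  | Sum.inl Pt.x, Sum.inl Pt.x, _ => False
  | Sum.inl Pt.x, Sum.inl Pt.y, _ => False
  | Sum.inl Pt.x, Sum.inr _, Sum.inl Pt.x => False
  | Sum.inl Pt.x, Sum.inr _, Sum.inl Pt.c => False
  | Sum.inl Pt.x, Sum.inr u, Sum.inl Pt.y => uC M u
  | Sum.inl Pt.x, Sum.inr u, Sum.inr w => uC M u ∧ uY M w
  | Sum.inl Pt.c, _, _ => False
  | Sum.inl Pt.y, _, _ => False
  | Sum.inr _, Sum.inl _, _ => False
  | Sum.inr _, Sum.inr _, Sum.inl Pt.x => False
  | Sum.inr _, Sum.inr _, Sum.inl Pt.c => False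
  | Sum.inr u, Sum.inr v, Sum.inl Pt.y => bN M u v
  | Sum.inr u, Sum.inr v, Sum.inr w => tR M u v w

/-- the big structure -/
def big : Str Sy ar (Pt ⊕ U) := mk (kX M) (kC M) (kY M) (kV M) (kI M) (kN M) (kR M ρ)

theorem big_inr : (big M ρ).pull Sum.inr = M := by
  apply str_ext <;> intros <;> simp only [uX_pull, uC_pull, uY_pull, uV_pull, bI_pull, bN_pull,
    tR_pull] <;> exact Iff.rfl

theorem uX_big (a : Pt ⊕ U) : uX (big M ρ) a ↔ kX M a := Iff.rfl
theorem uC_big (a : Pt ⊕ U) : uC (big M ρ) a ↔ kC M a := Iff.rfl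
theorem uY_big (a : Pt ⊕ U) : uY (big M ρ) a ↔ kY M a := Iff.rfl
theorem uV_big (a : Pt ⊕ U) : uV (big M ρ) a ↔ kV M a := Iff.rfl
theorem bI_big (a b : Pt ⊕ U) : bI (big M ρ) a b ↔ kI M a b := Iff.rfl
theorem bN_big (a b : Pt ⊕ U) : bN (big M ρ) a b ↔ kN M a b := Iff.rfl
theorem tR_big (a b c : Pt ⊕ U) : tR (big M ρ) a b c ↔ kR M ρ a b c := Iff.rfl

variable {M}

theorem big_good (hM : Good M) : Good (big M ρ) := by
  have hS : ∀ a : Pt ⊕ U, (kX M a ∨ kC M a ∨ kY M a ∨ kV M a) ∧ (kX M a → ¬ kC M a) ∧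
      (kX M a → ¬ kY M a) ∧ (kX M a → ¬ kV M a) ∧ (kC M a → ¬ kY M a) ∧ (kC M a → ¬ kV M a) ∧
      (kY M a → ¬ kV M a) := by
    rintro ((_ | _ | _) | a)
    · simp [kX, kC, kY, kV]
    · simp [kX, kC, kY, kV]
    · simp [kX, kC, kY, kV]
    · have := hM a a a a
      exact ⟨this.srt, this.XC, this.XY, this.XV, this.CY, this.CV, this.YV⟩
  have hI1 : ∀ a b : Pt ⊕ U, kI M a b → kV M b := by
    rintro ((_ | _ | _) | a) ((_ | _ | _) | b) <;> simp only [kI, kV, imp_self, false_imp_iff]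
    exact (hM a b a a).I1
  have hI2 : ∀ a b : Pt ⊕ U, kI M a b → ¬ kV M a := by
    rintro ((_ | _ | _) | a) ((_ | _ | _) | b) <;>
      simp only [kI, kV, imp_self, false_imp_iff, not_false_eq_true, implies_true]
    exact (hM a b a a).I2
  have hN1 : ∀ a b : Pt ⊕ U, kN M a b → kX M a := by
    rintro ((_ | _ | _) | a) ((_ | _ | _) | b) <;>
      simp only [kN, kX, imp_self, false_imp_iff, implies_true]
    exact (hM a b a a).N1
  have hN2 : ∀ a b : Pt ⊕ U, kN M a b → kC M b := by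
    rintro ((_ | _ | _) | a) ((_ | _ | _) | b) <;>
      simp only [kN, kC, imp_self, false_imp_iff, implies_true]
    exact (hM a b a a).N2
  have hR1 : ∀ a b c : Pt ⊕ U, kR M ρ a b c → kN M a b := by
    rintro ((_ | _ | _) | a) ((_ | _ | _) | b) ((_ | _ | _) | c) <;>
      simp only [kR, kN, imp_self, false_imp_iff, implies_true]
    · exact fun h => h.1
    · exact (hM a b c a).R1
  have hR2 : ∀ a b c : Pt ⊕ U, kR M ρ a b c → kY M c := by
    rintro ((_ | _ | _) | a) ((_ | _ | _) | b) ((_ | _ | _) | c) <;>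
      simp only [kR, kY, imp_self, false_imp_iff, implies_true]
    · exact fun h => h.2
    · exact (hM a b c a).R2
  have hNN : ∀ a b d : Pt ⊕ U, kX M a → kC M b → kI M a d → kI M b d → kN M a b := by
    rintro ((_ | _ | _) | a) ((_ | _ | _) | b) ((_ | _ | _) | d) <;>
      simp only [kX, kC, kI, kN, imp_self, false_imp_iff, implies_true]
    · intro _ h _ _
      exact h
    · exact (hM a b a d).NN
  have hRR : ∀ a b c d : Pt ⊕ U, kX M a → kC M b → kY M c → kI M a d → kI M b d → kI M c d →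
      kR M ρ a b c := by
    rintro ((_ | _ | _) | a) ((_ | _ | _) | b) ((_ | _ | _) | c) ((_ | _ | _) | d) <;>
      simp only [kX, kC, kY, kI, kR, imp_self, false_imp_iff, implies_true]
    · intro _ h _ _ _ _
      exact h
    · intro _ h h' _ _ _
      exact ⟨h, h'⟩
    · intro h1 h2 _ h3 h4 _
      exact (hM a b a d).NN h1 h2 h3 h4
    · exact (hM a b c d).RR
  intro a b c d
  obtain ⟨s1, s2, s3, s4, s5, s6, s7⟩ := hS a
  exact {
    srt := s1
    XC := s2
    XY := s3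
    XV := s4
    CY := s5
    CV := s6
    YV := s7
    I1 := hI1 a b
    I2 := hI2 a b
    N1 := hN1 a b
    N2 := hN2 a b
    R1 := hR1 a b c
    R2 := hR2 a b c
    NN := hNN a b d
    RR := hRR a b c d }

variable (M)

/-- the big structure is invariant under automorphisms -/
theorem big_invariant (σ : U → U) (hσ : M.pull σ = M) :
    (big M ρ).pull (Sum.map id σ) = big M ρ := by
  have eX : ∀ a, uX M (σ a) ↔ uX M a := fun a => by conv_rhs => rw [← hσ, uX_pull]
  have eC : ∀ a, uC M (σ a) ↔ uC M a := fun a => by conv_rhs => rw [← hσ, uC_pull]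
  have eY : ∀ a, uY M (σ a) ↔ uY M a := fun a => by conv_rhs => rw [← hσ, uY_pull]
  have eV : ∀ a, uV M (σ a) ↔ uV M a := fun a => by conv_rhs => rw [← hσ, uV_pull]
  have eI : ∀ a b, bI M (σ a) (σ b) ↔ bI M a b := fun a b => by conv_rhs => rw [← hσ, bI_pull]
  have eN : ∀ a b, bN M (σ a) (σ b) ↔ bN M a b := fun a b => by conv_rhs => rw [← hσ, bN_pull]
  have eR : ∀ a b c, tR M (σ a) (σ b) (σ c) ↔ tR M a b c := fun a b c => by
    conv_rhs => rw [← hσ, tR_pull]
  apply str_ext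
  · rintro ((_ | _ | _) | a) <;> simp only [uX_pull, uX_big, Sum.map_inl, Sum.map_inr, id, kX, eX]
  · rintro ((_ | _ | _) | a) <;> simp only [uC_pull, uC_big, Sum.map_inl, Sum.map_inr, id, kC, eC]
  · rintro ((_ | _ | _) | a) <;> simp only [uY_pull, uY_big, Sum.map_inl, Sum.map_inr, id, kY, eY]
  · rintro ((_ | _ | _) | a) <;> simp only [uV_pull, uV_big, Sum.map_inl, Sum.map_inr, id, kV, eV]
  · rintro ((_ | _ | _) | a) ((_ | _ | _) | b) <;>
      simp only [bI_pull, bI_big, Sum.map_inl, Sum.map_inr, id, kI, eI, eV]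
  · rintro ((_ | _ | _) | a) ((_ | _ | _) | b) <;>
      simp only [bN_pull, bN_big, Sum.map_inl, Sum.map_inr, id, kN, eN, eC]
  · rintro ((_ | _ | _) | a) ((_ | _ | _) | b) ((_ | _ | _) | c) <;>
      simp only [tR_pull, tR_big, Sum.map_inl, Sum.map_inr, id, kR, eN, eC, eY, eR]

end big

end Pool.Agent.H702R3.Gen.Cls
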