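import Pool.Agent.H702R3.Gen.Big

/-!
# The quantifier-free types used for the counterexample on weak orthogonality: properties
-/

set_option autoImplicit false

open FirstOrder FirstOrder.Language FirstOrder.Language.Structure

namespace Pool.Agent.H702R3.Gen

/-- tuples satisfying the same formulas have the same relations -/
theorem same_of_formulas {S : Type} {ar : S → ℕ} {N N' : Type} [(Lg S ar).Structure N]
    [(Lg S ar).Structure N'] {κ : Type} (v : κ → N) (v' : κ → N')
    (h : ∀ φ : (Lg S ar).Formula κ, φ.Realize v ↔ φ.Realize v') : Same (ar := ar) v v' := by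
  constructor
  · intro i k
    have := h (Term.equal (Term.var i) (Term.var k))
    rw [Formula.realize_equal, Formula.realize_equal] at this
    exact this
  · funext s t
    have := h (Relations.formula (L := Lg S ar) (⟨s, rfl⟩ : (Lg S ar).Relations (ar s))
      (fun i => Term.var (t i)))
    exact propext this

namespace Cls

variable {U : Type} {M : Str Sy ar U}

/-- every element of `C` is incident with an element of `V` -/
theorem exists_inc (hM : Good M) (hE : Ext (fun {α} M => @Good α M) M) (u : U) (hu : uC M u) :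
    ∃ v, bI M u v := by
  have h1 := hM u u u u
  have nX : ¬ uX M u := fun h => h1.XC h hu
  have nY : ¬ uY M u := h1.CY hu
  have nV : ¬ uV M u := h1.CV hu
  have nI : ¬ bI M u u := fun h => nV (h1.I1 h)
  have nN : ¬ bN M u u := fun h => nX (h1.N1 h)
  have nR : ¬ tR M u u u := fun h => nN (h1.R1 h)
  let K : Str Sy ar (Option (Fin 1)) :=
    mk (fun _ => False) (fun o => o ≠ none) (fun _ => False) (fun o => o = none)
      (fun o o' => o ≠ none ∧ o' = none) (fun _ _ => False) (fun _ _ _ => False)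
  have hK : Good K := by
    intro a b c d
    constructor
    · change False ∨ a ≠ none ∨ False ∨ a = none
      tauto
    · exact fun h => h.elim
    · exact fun h => h.elim
    · exact fun h => h.elim
    · exact fun _ h => h
    · exact fun h h' => h h'
    · exact fun h => h.elim
    · exact fun h => h.2
    · exact fun h => h.1
    · exact fun h => h.elim
    · exact fun h => h.elim
    · exact fun h => h.elim
    · exact fun h => h.elim
    · exact fun h => h.elim
    · exact fun h => h.elim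
  have hKM : K.pull some = M.pull (fun _ : Fin 1 => u) := by
    apply str_ext
    · intro a
      simp only [uX_pull]
      exact ⟨fun h => h.elim, fun h => nX h⟩
    · intro a
      simp only [uC_pull]
      exact ⟨fun _ => hu, fun _ => Option.some_ne_none a⟩
    · intro a
      simp only [uY_pull]
      exact ⟨fun h => h.elim, fun h => nY h⟩
    · intro a
      simp only [uV_pull]
      exact ⟨fun h => absurd h (Option.some_ne_none a), fun h => absurd h nV⟩
    · intro a b
      simp only [bI_pull]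
      exact ⟨fun h => absurd h.2 (Option.some_ne_none b), fun h => absurd h nI⟩
    · intro a b
      simp only [bN_pull]
      exact ⟨fun h => h.elim, fun h => nN h⟩
    · intro a b c
      simp only [tR_pull]
      exact ⟨fun h => h.elim, fun h => nR h⟩
  obtain ⟨b, -, hb⟩ := hE 1 (fun _ => u) (fun i j _ => Subsingleton.elim i j) K hK hKM
  refine ⟨b, ?_⟩
  have h2 : bI K (some 0) none := ⟨Option.some_ne_none 0, rfl⟩
  rw [← hb, bI_pull] at h2
  exact h2

section

variable {ρ : Prop}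

/-- the type of `x` and the type of `y` determine the type of the pair -/
theorem worth_xy (hM : Good M) (hE : ∀ u, uC M u → ∃ v, bI M u v)
    (Z : Str Sy ar ((Unit ⊕ Unit) ⊕ U)) (hZ : Good Z)
    (h1 : Z.pull (Sum.map Sum.inl id) = (big M ρ).pull (Sum.map (fun _ => Pt.x) id))
    (h2 : Z.pull (Sum.map Sum.inr id) = (big M ρ).pull (Sum.map (fun _ => Pt.y) id)) :
    Z = (big M ρ).pull (Sum.map (Sum.elim (fun _ => Pt.x) (fun _ => Pt.y)) id) := by
  have x1 : ∀ o : Unit ⊕ U, uX Z (Sum.map Sum.inl id o) ↔ kX M (Sum.map (fun _ => Pt.x) id o) :=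
    fun o => by rw [← uX_pull, h1, uX_pull, uX_big]
  have x2 : ∀ o : Unit ⊕ U, uX Z (Sum.map Sum.inr id o) ↔ kX M (Sum.map (fun _ => Pt.y) id o) :=
    fun o => by rw [← uX_pull, h2, uX_pull, uX_big]
  have c1 : ∀ o : Unit ⊕ U, uC Z (Sum.map Sum.inl id o) ↔ kC M (Sum.map (fun _ => Pt.x) id o) :=
    fun o => by rw [← uC_pull, h1, uC_pull, uC_big]
  have c2 : ∀ o : Unit ⊕ U, uC Z (Sum.map Sum.inr id o) ↔ kC M (Sum.map (fun _ => Pt.y) id o) :=
    fun o => by rw [← uC_pull, h2, uC_pull, uC_big]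
  have y1 : ∀ o : Unit ⊕ U, uY Z (Sum.map Sum.inl id o) ↔ kY M (Sum.map (fun _ => Pt.x) id o) :=
    fun o => by rw [← uY_pull, h1, uY_pull, uY_big]
  have y2 : ∀ o : Unit ⊕ U, uY Z (Sum.map Sum.inr id o) ↔ kY M (Sum.map (fun _ => Pt.y) id o) :=
    fun o => by rw [← uY_pull, h2, uY_pull, uY_big]
  have v1 : ∀ o : Unit ⊕ U, uV Z (Sum.map Sum.inl id o) ↔ kV M (Sum.map (fun _ => Pt.x) id o) :=
    fun o => by rw [← uV_pull, h1, uV_pull, uV_big]
  have v2 : ∀ o : Unit ⊕ U, uV Z (Sum.map Sum.inr id o) ↔ kV M (Sum.map (fun _ => Pt.y) id o) :=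
    fun o => by rw [← uV_pull, h2, uV_pull, uV_big]
  have i1 : ∀ o o' : Unit ⊕ U, bI Z (Sum.map Sum.inl id o) (Sum.map Sum.inl id o') ↔
      kI M (Sum.map (fun _ => Pt.x) id o) (Sum.map (fun _ => Pt.x) id o') :=
    fun o o' => by rw [← bI_pull, h1, bI_pull, bI_big]
  have i2 : ∀ o o' : Unit ⊕ U, bI Z (Sum.map Sum.inr id o) (Sum.map Sum.inr id o') ↔
      kI M (Sum.map (fun _ => Pt.y) id o) (Sum.map (fun _ => Pt.y) id o') :=
    fun o o' => by rw [← bI_pull, h2, bI_pull, bI_big]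
  have n1 : ∀ o o' : Unit ⊕ U, bN Z (Sum.map Sum.inl id o) (Sum.map Sum.inl id o') ↔
      kN M (Sum.map (fun _ => Pt.x) id o) (Sum.map (fun _ => Pt.x) id o') :=
    fun o o' => by rw [← bN_pull, h1, bN_pull, bN_big]
  have n2 : ∀ o o' : Unit ⊕ U, bN Z (Sum.map Sum.inr id o) (Sum.map Sum.inr id o') ↔
      kN M (Sum.map (fun _ => Pt.y) id o) (Sum.map (fun _ => Pt.y) id o') :=
    fun o o' => by rw [← bN_pull, h2, bN_pull, bN_big]
  have r1 : ∀ o o' o'' : Unit ⊕ U, tR Z (Sum.map Sum.inl id o) (Sum.map Sum.inl id o')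
      (Sum.map Sum.inl id o'') ↔ kR M ρ (Sum.map (fun _ => Pt.x) id o)
        (Sum.map (fun _ => Pt.x) id o') (Sum.map (fun _ => Pt.x) id o'') :=
    fun o o' o'' => by rw [← tR_pull, h1, tR_pull, tR_big]
  have r2 : ∀ o o' o'' : Unit ⊕ U, tR Z (Sum.map Sum.inr id o) (Sum.map Sum.inr id o')
      (Sum.map Sum.inr id o'') ↔ kR M ρ (Sum.map (fun _ => Pt.y) id o)
        (Sum.map (fun _ => Pt.y) id o') (Sum.map (fun _ => Pt.y) id o'') :=
    fun o o' o'' => by rw [← tR_pull, h2, tR_pull, tR_big]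
  have tX : ∀ a, uX Z a ↔ kX M (Sum.map (Sum.elim (fun _ => Pt.x) (fun _ => Pt.y)) id a) := by
    rintro ((_ | _) | u)
    · exact x1 (Sum.inl ())
    · exact x2 (Sum.inl ())
    · exact x1 (Sum.inr u)
  have tC : ∀ a, uC Z a ↔ kC M (Sum.map (Sum.elim (fun _ => Pt.x) (fun _ => Pt.y)) id a) := by
    rintro ((_ | _) | u)
    · exact c1 (Sum.inl ())
    · exact c2 (Sum.inl ())
    · exact c1 (Sum.inr u)
  have tY : ∀ a, uY Z a ↔ kY M (Sum.map (Sum.elim (fun _ => Pt.x) (fun _ => Pt.y)) id a) := by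
    rintro ((_ | _) | u)
    · exact y1 (Sum.inl ())
    · exact y2 (Sum.inl ())
    · exact y1 (Sum.inr u)
  have tV : ∀ a, uV Z a ↔ kV M (Sum.map (Sum.elim (fun _ => Pt.x) (fun _ => Pt.y)) id a) := by
    rintro ((_ | _) | u)
    · exact v1 (Sum.inl ())
    · exact v2 (Sum.inl ())
    · exact v1 (Sum.inr u)
  refine good_ext hZ ((big_good ρ hM).pull _) ?_ ?_ ?_ ?_ ?_ ?_ ?_
  · intro a; rw [uX_pull]; exact tX a
  · intro a; rw [uC_pull]; exact tC a
  · intro a; rw [uY_pull]; exact tY a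
  · intro a; rw [uV_pull]; exact tV a
  · intro a b hb
    rw [bI_pull]
    rw [tV] at hb
    rcases b with (_ | _) | v
    · exact hb.elim
    · exact hb.elim
    · rcases a with (_ | _) | u
      · exact i1 (Sum.inl ()) (Sum.inr v)
      · exact i2 (Sum.inl ()) (Sum.inr v)
      · exact i1 (Sum.inr u) (Sum.inr v)
  · intro a b ha hb
    rw [bN_pull]
    rw [tX] at ha
    rw [tC] at hb
    rcases b with (_ | _) | v
    · exact hb.elim
    · exact hb.elim
    · rcases a with (_ | _) | u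
      · exact n1 (Sum.inl ()) (Sum.inr v)
      · exact ha.elim
      · exact n1 (Sum.inr u) (Sum.inr v)
  · intro a b c ha hb hc _
    rw [tR_pull]
    have ha' := ha
    have hb' := hb
    have hc' := hc
    rw [tX] at ha
    rw [tC] at hb
    rw [tY] at hc
    rcases b with (_ | _) | v
    · exact hb.elim
    · exact hb.elim
    · rcases a with (_ | _) | u
      · rcases c with (_ | _) | w
        · exact hc.elim
        · obtain ⟨v', hv'⟩ := hE v hb
          have hv'' : uV M v' := (hM v v' v v).I1 hv'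
          refine ⟨fun _ => hb, fun _ => ?_⟩
          exact (hZ _ _ _ (Sum.inr v')).RR ha' hb' hc' ((i1 (Sum.inl ()) (Sum.inr v')).2 hv'')
            ((i1 (Sum.inr v) (Sum.inr v')).2 hv') ((i2 (Sum.inl ()) (Sum.inr v')).2 hv'')
        · exact r1 (Sum.inl ()) (Sum.inr v) (Sum.inr w)
      · exact ha.elim
      · rcases c with (_ | _) | w
        · exact hc.elim
        · exact r2 (Sum.inr u) (Sum.inr v) (Sum.inl ())
        · exact r1 (Sum.inr u) (Sum.inr v) (Sum.inr w)

/-- the type of `c` and the type of `y` determine the type of the pair -/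
theorem worth_cy (hM : Good M)
    (Z : Str Sy ar ((Unit ⊕ Unit) ⊕ U)) (hZ : Good Z)
    (h1 : Z.pull (Sum.map Sum.inl id) = (big M ρ).pull (Sum.map (fun _ => Pt.c) id))
    (h2 : Z.pull (Sum.map Sum.inr id) = (big M ρ).pull (Sum.map (fun _ => Pt.y) id)) :
    Z = (big M ρ).pull (Sum.map (Sum.elim (fun _ => Pt.c) (fun _ => Pt.y)) id) := by
  have x1 : ∀ o : Unit ⊕ U, uX Z (Sum.map Sum.inl id o) ↔ kX M (Sum.map (fun _ => Pt.c) id o) :=
    fun o => by rw [← uX_pull, h1, uX_pull, uX_big]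
  have x2 : ∀ o : Unit ⊕ U, uX Z (Sum.map Sum.inr id o) ↔ kX M (Sum.map (fun _ => Pt.y) id o) :=
    fun o => by rw [← uX_pull, h2, uX_pull, uX_big]
  have c1 : ∀ o : Unit ⊕ U, uC Z (Sum.map Sum.inl id o) ↔ kC M (Sum.map (fun _ => Pt.c) id o) :=
    fun o => by rw [← uC_pull, h1, uC_pull, uC_big]
  have c2 : ∀ o : Unit ⊕ U, uC Z (Sum.map Sum.inr id o) ↔ kC M (Sum.map (fun _ => Pt.y) id o) :=
    fun o => by rw [← uC_pull, h2, uC_pull, uC_big]
  have y1 : ∀ o : Unit ⊕ U, uY Z (Sum.map Sum.inl id o) ↔ kY M (Sum.map (fun _ => Pt.c) id o) :=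
    fun o => by rw [← uY_pull, h1, uY_pull, uY_big]
  have y2 : ∀ o : Unit ⊕ U, uY Z (Sum.map Sum.inr id o) ↔ kY M (Sum.map (fun _ => Pt.y) id o) :=
    fun o => by rw [← uY_pull, h2, uY_pull, uY_big]
  have v1 : ∀ o : Unit ⊕ U, uV Z (Sum.map Sum.inl id o) ↔ kV M (Sum.map (fun _ => Pt.c) id o) :=
    fun o => by rw [← uV_pull, h1, uV_pull, uV_big]
  have v2 : ∀ o : Unit ⊕ U, uV Z (Sum.map Sum.inr id o) ↔ kV M (Sum.map (fun _ => Pt.y) id o) :=
    fun o => by rw [← uV_pull, h2, uV_pull, uV_big]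
  have i1 : ∀ o o' : Unit ⊕ U, bI Z (Sum.map Sum.inl id o) (Sum.map Sum.inl id o') ↔
      kI M (Sum.map (fun _ => Pt.c) id o) (Sum.map (fun _ => Pt.c) id o') :=
    fun o o' => by rw [← bI_pull, h1, bI_pull, bI_big]
  have i2 : ∀ o o' : Unit ⊕ U, bI Z (Sum.map Sum.inr id o) (Sum.map Sum.inr id o') ↔
      kI M (Sum.map (fun _ => Pt.y) id o) (Sum.map (fun _ => Pt.y) id o') :=
    fun o o' => by rw [← bI_pull, h2, bI_pull, bI_big]
  have n1 : ∀ o o' : Unit ⊕ U, bN Z (Sum.map Sum.inl id o) (Sum.map Sum.inl id o') ↔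
      kN M (Sum.map (fun _ => Pt.c) id o) (Sum.map (fun _ => Pt.c) id o') :=
    fun o o' => by rw [← bN_pull, h1, bN_pull, bN_big]
  have n2 : ∀ o o' : Unit ⊕ U, bN Z (Sum.map Sum.inr id o) (Sum.map Sum.inr id o') ↔
      kN M (Sum.map (fun _ => Pt.y) id o) (Sum.map (fun _ => Pt.y) id o') :=
    fun o o' => by rw [← bN_pull, h2, bN_pull, bN_big]
  have r1 : ∀ o o' o'' : Unit ⊕ U, tR Z (Sum.map Sum.inl id o) (Sum.map Sum.inl id o')
      (Sum.map Sum.inl id o'') ↔ kR M ρ (Sum.map (fun _ => Pt.c) id o)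
        (Sum.map (fun _ => Pt.c) id o') (Sum.map (fun _ => Pt.c) id o'') :=
    fun o o' o'' => by rw [← tR_pull, h1, tR_pull, tR_big]
  have r2 : ∀ o o' o'' : Unit ⊕ U, tR Z (Sum.map Sum.inr id o) (Sum.map Sum.inr id o')
      (Sum.map Sum.inr id o'') ↔ kR M ρ (Sum.map (fun _ => Pt.y) id o)
        (Sum.map (fun _ => Pt.y) id o') (Sum.map (fun _ => Pt.y) id o'') :=
    fun o o' o'' => by rw [← tR_pull, h2, tR_pull, tR_big]
  have tX : ∀ a, uX Z a ↔ kX M (Sum.map (Sum.elim (fun _ => Pt.c) (fun _ => Pt.y)) id a) := by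
    rintro ((_ | _) | u)
    · exact x1 (Sum.inl ())
    · exact x2 (Sum.inl ())
    · exact x1 (Sum.inr u)
  have tC : ∀ a, uC Z a ↔ kC M (Sum.map (Sum.elim (fun _ => Pt.c) (fun _ => Pt.y)) id a) := by
    rintro ((_ | _) | u)
    · exact c1 (Sum.inl ())
    · exact c2 (Sum.inl ())
    · exact c1 (Sum.inr u)
  have tY : ∀ a, uY Z a ↔ kY M (Sum.map (Sum.elim (fun _ => Pt.c) (fun _ => Pt.y)) id a) := by
    rintro ((_ | _) | u)
    · exact y1 (Sum.inl ())
    · exact y2 (Sum.inl ())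
    · exact y1 (Sum.inr u)
  have tV : ∀ a, uV Z a ↔ kV M (Sum.map (Sum.elim (fun _ => Pt.c) (fun _ => Pt.y)) id a) := by
    rintro ((_ | _) | u)
    · exact v1 (Sum.inl ())
    · exact v2 (Sum.inl ())
    · exact v1 (Sum.inr u)
  refine good_ext hZ ((big_good ρ hM).pull _) ?_ ?_ ?_ ?_ ?_ ?_ ?_
  · intro a; rw [uX_pull]; exact tX a
  · intro a; rw [uC_pull]; exact tC a
  · intro a; rw [uY_pull]; exact tY a
  · intro a; rw [uV_pull]; exact tV a
  · intro a b hb
    rw [bI_pull]
    rw [tV] at hb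
    rcases b with (_ | _) | v
    · exact hb.elim
    · exact hb.elim
    · rcases a with (_ | _) | u
      · exact i1 (Sum.inl ()) (Sum.inr v)
      · exact i2 (Sum.inl ()) (Sum.inr v)
      · exact i1 (Sum.inr u) (Sum.inr v)
  · intro a b ha hb
    rw [bN_pull]
    rw [tX] at ha
    rw [tC] at hb
    rcases a with (_ | _) | u
    · exact ha.elim
    · exact ha.elim
    · rcases b with (_ | _) | v
      · exact n1 (Sum.inr u) (Sum.inl ())
      · exact hb.elim
      · exact n1 (Sum.inr u) (Sum.inr v)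
  · intro a b c ha hb hc hn
    rw [tR_pull]
    rw [tX] at ha
    rw [tC] at hb
    rw [tY] at hc
    rcases a with (_ | _) | u
    · exact ha.elim
    · exact ha.elim
    · rcases b with (_ | _) | v
      · exact absurd ((n1 (Sum.inr u) (Sum.inl ())).1 hn) not_false
      · exact hb.elim
      · rcases c with (_ | _) | w
        · exact hc.elim
        · exact r2 (Sum.inr u) (Sum.inr v) (Sum.inl ())
        · exact r1 (Sum.inr u) (Sum.inr v) (Sum.inr w)

/-- the tensor product -/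
theorem tensor_eq {B : Type} (e : B → U) (b : Unit → U)
    (hb : M.pull (Sum.elim b e : Unit ⊕ B → U) =
      (big M ρ).pull (Sum.map (fun _ => Pt.c) e)) :
    (big M ρ).pull (Sum.map (Sum.elim (fun _ : Unit => Pt.x) (fun _ : Unit => Pt.c)) e) =
      (big M ρ).pull (Sum.elim (Sum.map (fun _ : Unit => Pt.x) b) (Sum.inr ∘ e)) := by
  have x1 : ∀ o : Unit ⊕ B, uX M (Sum.elim b e o) ↔ kX M (Sum.map (fun _ => Pt.c) e o) :=
    fun o => by rw [← uX_pull, hb, uX_pull, uX_big]
  have c1 : ∀ o : Unit ⊕ B, uC M (Sum.elim b e o) ↔ kC M (Sum.map (fun _ => Pt.c) e o) :=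
    fun o => by rw [← uC_pull, hb, uC_pull, uC_big]
  have y1 : ∀ o : Unit ⊕ B, uY M (Sum.elim b e o) ↔ kY M (Sum.map (fun _ => Pt.c) e o) :=
    fun o => by rw [← uY_pull, hb, uY_pull, uY_big]
  have v1 : ∀ o : Unit ⊕ B, uV M (Sum.elim b e o) ↔ kV M (Sum.map (fun _ => Pt.c) e o) :=
    fun o => by rw [← uV_pull, hb, uV_pull, uV_big]
  have i1 : ∀ o o' : Unit ⊕ B, bI M (Sum.elim b e o) (Sum.elim b e o') ↔
      kI M (Sum.map (fun _ => Pt.c) e o) (Sum.map (fun _ => Pt.c) e o') :=
    fun o o' => by rw [← bI_pull, hb, bI_pull, bI_big]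
  have n1 : ∀ o o' : Unit ⊕ B, bN M (Sum.elim b e o) (Sum.elim b e o') ↔
      kN M (Sum.map (fun _ => Pt.c) e o) (Sum.map (fun _ => Pt.c) e o') :=
    fun o o' => by rw [← bN_pull, hb, bN_pull, bN_big]
  have r1 : ∀ o o' o'' : Unit ⊕ B, tR M (Sum.elim b e o) (Sum.elim b e o') (Sum.elim b e o'') ↔
      kR M ρ (Sum.map (fun _ => Pt.c) e o) (Sum.map (fun _ => Pt.c) e o')
        (Sum.map (fun _ => Pt.c) e o'') :=
    fun o o' o'' => by rw [← tR_pull, hb, tR_pull, tR_big]
  have cb : uC M (b ()) := (c1 (Sum.inl ())).2 trivial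
  have yb : ¬ uY M (b ()) := fun h => (y1 (Sum.inl ())).1 h
  have vb : ¬ uV M (b ()) := fun h => (v1 (Sum.inl ())).1 h
  apply str_ext
  · rintro ((_ | _) | u) <;> simp only [uX_pull, uX_big]
    · exact Iff.rfl
    · exact (x1 (Sum.inl ())).symm
    · exact Iff.rfl
  · rintro ((_ | _) | u) <;> simp only [uC_pull, uC_big]
    · exact Iff.rfl
    · exact (c1 (Sum.inl ())).symm
    · exact Iff.rfl
  · rintro ((_ | _) | u) <;> simp only [uY_pull, uY_big]
    · exact Iff.rfl
    · exact (y1 (Sum.inl ())).symm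
    · exact Iff.rfl
  · rintro ((_ | _) | u) <;> simp only [uV_pull, uV_big]
    · exact Iff.rfl
    · exact (v1 (Sum.inl ())).symm
    · exact Iff.rfl
  · rintro ((_ | _) | u) ((_ | _) | v) <;> simp only [bI_pull, bI_big]
    · exact Iff.rfl
    · exact ⟨fun h => h.elim, fun h => vb h⟩
    · exact Iff.rfl
    · exact Iff.rfl
    · exact (i1 (Sum.inl ()) (Sum.inl ())).symm
    · exact (i1 (Sum.inl ()) (Sum.inr v)).symm
    · exact Iff.rfl
    · exact (i1 (Sum.inr u) (Sum.inl ())).symm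
    · exact Iff.rfl
  · rintro ((_ | _) | u) ((_ | _) | v) <;> simp only [bN_pull, bN_big]
    · exact Iff.rfl
    · exact ⟨fun _ => cb, fun _ => trivial⟩
    · exact Iff.rfl
    · exact Iff.rfl
    · exact (n1 (Sum.inl ()) (Sum.inl ())).symm
    · exact (n1 (Sum.inl ()) (Sum.inr v)).symm
    · exact Iff.rfl
    · exact (n1 (Sum.inr u) (Sum.inl ())).symm
    · exact Iff.rfl
  · rintro ((_ | _) | u) ((_ | _) | v) ((_ | _) | w) <;> simp only [tR_pull, tR_big]
    -- x x _
    · exact Iff.rfl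
    · exact Iff.rfl
    · exact Iff.rfl
    -- x c _
    · exact Iff.rfl
    · exact ⟨fun h => h.elim, fun h => yb h.2⟩
    · exact ⟨fun h => ⟨cb, h⟩, fun h => h.2⟩
    -- x u _
    · exact Iff.rfl
    · exact ⟨fun h => h.elim, fun h => yb h.2⟩
    · exact Iff.rfl
    -- c x _
    · exact Iff.rfl
    · exact Iff.rfl
    · exact Iff.rfl
    -- c c _
    · exact Iff.rfl
    · exact (r1 (Sum.inl ()) (Sum.inl ()) (Sum.inl ())).symm
    · exact (r1 (Sum.inl ()) (Sum.inl ()) (Sum.inr w)).symm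
    -- c u _
    · exact Iff.rfl
    · exact (r1 (Sum.inl ()) (Sum.inr v) (Sum.inl ())).symm
    · exact (r1 (Sum.inl ()) (Sum.inr v) (Sum.inr w)).symm
    -- u x _
    · exact Iff.rfl
    · exact Iff.rfl
    · exact Iff.rfl
    -- u c _
    · exact Iff.rfl
    · exact (r1 (Sum.inr u) (Sum.inl ()) (Sum.inl ())).symm
    · exact (r1 (Sum.inr u) (Sum.inl ()) (Sum.inr w)).symm
    -- u v _
    · exact Iff.rfl
    · exact (r1 (Sum.inr u) (Sum.inr v) (Sum.inl ())).symm
    · exact Iff.rfl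

/-- the pair `x, c` has the same type in both structures -/
theorem big_xc (ρ' : Prop) :
    (big M ρ).pull (Sum.map (Sum.elim (fun _ : Unit => Pt.x) (fun _ : Unit => Pt.c)) id) =
      (big M ρ').pull (Sum.map (Sum.elim (fun _ : Unit => Pt.x) (fun _ : Unit => Pt.c)) id) := by
  apply str_ext
  · intro a; simp only [uX_pull, uX_big]
  · intro a; simp only [uC_pull, uC_big]
  · intro a; simp only [uY_pull, uY_big]
  · intro a; simp only [uV_pull, uV_big]
  · intro a b; simp only [bI_pull, bI_big]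
  · intro a b; simp only [bN_pull, bN_big]
  · rintro ((_ | _) | u) ((_ | _) | v) ((_ | _) | w) <;> simp only [tR_pull, tR_big] <;>
      exact Iff.rfl

/-- `y` has the same type in both structures -/
theorem big_y (ρ' : Prop) :
    (big M ρ).pull (Sum.map (fun _ : Unit => Pt.y) id) =
      (big M ρ').pull (Sum.map (fun _ : Unit => Pt.y) id) := by
  apply str_ext
  · intro a; simp only [uX_pull, uX_big]
  · intro a; simp only [uC_pull, uC_big]
  · intro a; simp only [uY_pull, uY_big]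
  · intro a; simp only [uV_pull, uV_big]
  · intro a b; simp only [bI_pull, bI_big]
  · intro a b; simp only [bN_pull, bN_big]
  · rintro (_ | u) (_ | v) (_ | w) <;> simp only [tR_pull, tR_big] <;>
      exact Iff.rfl

end

end Cls

end Pool.Agent.H702R3.Gen
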