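import Pool.Agent.H702R3.Gen.Realize

/-!
# The class of structures used for the counterexample on weak orthogonality

Four sorts `X, C, Y, V`, an incidence relation `I` between elements of `X, C, Y` and elements of
`V`, a relation `N` between `X` and `C` and a relation `R` on `X × C × Y`, with the axioms
* `I x v`, `I c v`, `I y v` imply `R x c y`;
* `I x v`, `I c v` imply `N x c`;
* `R x c y` implies `N x c`.
-/

set_option autoImplicit false

namespace Pool.Agent.H702R3.Gen.Cls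

/-- the relation symbols -/
inductive Sy
  | X | C | Y | V | I | N | R

instance : Finite Sy :=
  Finite.of_surjective (fun i : Fin 7 => match i with
    | 0 => Sy.X
    | 1 => Sy.C
    | 2 => Sy.Y
    | 3 => Sy.V
    | 4 => Sy.I
    | 5 => Sy.N
    | 6 => Sy.R) (fun s => by
      cases s
      · exact ⟨0, rfl⟩
      · exact ⟨1, rfl⟩
      · exact ⟨2, rfl⟩
      · exact ⟨3, rfl⟩
      · exact ⟨4, rfl⟩
      · exact ⟨5, rfl⟩
      · exact ⟨6, rfl⟩)

/-- the arities -/
def ar : Sy → ℕ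
  | Sy.X => 1
  | Sy.C => 1
  | Sy.Y => 1
  | Sy.V => 1
  | Sy.I => 2
  | Sy.N => 2
  | Sy.R => 3

theorem ar_pos : ∀ s, 0 < ar s := by
  intro s
  cases s <;> simp [ar]

section acc

variable {α β : Type} (M : Str Sy ar α)

/-- the sort `X` -/
def uX (a : α) : Prop := M Sy.X (![a] : Fin 1 → α)
/-- the sort `C` -/
def uC (a : α) : Prop := M Sy.C (![a] : Fin 1 → α)
/-- the sort `Y` -/
def uY (a : α) : Prop := M Sy.Y (![a] : Fin 1 → α)
/-- the sort `V` -/
def uV (a : α) : Prop := M Sy.V (![a] : Fin 1 → α)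
/-- incidence -/
def bI (a b : α) : Prop := M Sy.I (![a, b] : Fin 2 → α)
/-- the relation `N` -/
def bN (a b : α) : Prop := M Sy.N (![a, b] : Fin 2 → α)
/-- the relation `R` -/
def tR (a b c : α) : Prop := M Sy.R (![a, b, c] : Fin 3 → α)

theorem comp1 (f : β → α) (a : β) : f ∘ (![a] : Fin 1 → β) = ![f a] := by
  funext i; fin_cases i; rfl
theorem comp2 (f : β → α) (a b : β) : f ∘ (![a, b] : Fin 2 → β) = ![f a, f b] := by
  funext i; fin_cases i <;> rfl
theorem comp3 (f : β → α) (a b c : β) : f ∘ (![a, b, c] : Fin 3 → β) = ![f a, f b, f c] := by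
  funext i; fin_cases i <;> rfl

@[simp] theorem uX_pull (f : β → α) (a : β) : uX (M.pull f) a ↔ uX M (f a) :=
  iff_of_eq (congrArg (M Sy.X) (comp1 f a))
@[simp] theorem uC_pull (f : β → α) (a : β) : uC (M.pull f) a ↔ uC M (f a) :=
  iff_of_eq (congrArg (M Sy.C) (comp1 f a))
@[simp] theorem uY_pull (f : β → α) (a : β) : uY (M.pull f) a ↔ uY M (f a) :=
  iff_of_eq (congrArg (M Sy.Y) (comp1 f a))
@[simp] theorem uV_pull (f : β → α) (a : β) : uV (M.pull f) a ↔ uV M (f a) :=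
  iff_of_eq (congrArg (M Sy.V) (comp1 f a))
@[simp] theorem bI_pull (f : β → α) (a b : β) : bI (M.pull f) a b ↔ bI M (f a) (f b) :=
  iff_of_eq (congrArg (M Sy.I) (comp2 f a b))
@[simp] theorem bN_pull (f : β → α) (a b : β) : bN (M.pull f) a b ↔ bN M (f a) (f b) :=
  iff_of_eq (congrArg (M Sy.N) (comp2 f a b))
@[simp] theorem tR_pull (f : β → α) (a b c : β) :
    tR (M.pull f) a b c ↔ tR M (f a) (f b) (f c) :=
  iff_of_eq (congrArg (M Sy.R) (comp3 f a b c))

variable {M}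

/-- extensionality -/
theorem str_ext {M' : Str Sy ar α} (hX : ∀ a, uX M a ↔ uX M' a) (hC : ∀ a, uC M a ↔ uC M' a)
    (hY : ∀ a, uY M a ↔ uY M' a) (hV : ∀ a, uV M a ↔ uV M' a)
    (hI : ∀ a b, bI M a b ↔ bI M' a b) (hN : ∀ a b, bN M a b ↔ bN M' a b)
    (hR : ∀ a b c, tR M a b c ↔ tR M' a b c) : M = M' := by
  have e1 : ∀ t : Fin 1 → α, t = ![t 0] := fun t => by funext i; fin_cases i; rfl
  have e2 : ∀ t : Fin 2 → α, t = ![t 0, t 1] := fun t => by funext i; fin_cases i <;> rfl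
  have e3 : ∀ t : Fin 3 → α, t = ![t 0, t 1, t 2] := fun t => by funext i; fin_cases i <;> rfl
  funext s t
  cases s with
  | X => exact ((congrArg (M Sy.X) (e1 t)).trans (propext (hX _))).trans (congrArg (M' Sy.X) (e1 t)).symm
  | C => exact ((congrArg (M Sy.C) (e1 t)).trans (propext (hC _))).trans (congrArg (M' Sy.C) (e1 t)).symm
  | Y => exact ((congrArg (M Sy.Y) (e1 t)).trans (propext (hY _))).trans (congrArg (M' Sy.Y) (e1 t)).symm
  | V => exact ((congrArg (M Sy.V) (e1 t)).trans (propext (hV _))).trans (congrArg (M' Sy.V) (e1 t)).symm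
  | I => exact ((congrArg (M Sy.I) (e2 t)).trans (propext (hI _ _))).trans (congrArg (M' Sy.I) (e2 t)).symm
  | N => exact ((congrArg (M Sy.N) (e2 t)).trans (propext (hN _ _))).trans (congrArg (M' Sy.N) (e2 t)).symm
  | R => exact ((congrArg (M Sy.R) (e3 t)).trans (propext (hR _ _ _))).trans (congrArg (M' Sy.R) (e3 t)).symm

end acc

/-- the axioms at four points -/
structure Ax {α : Type} (M : Str Sy ar α) (a b c d : α) : Prop where
  srt : uX M a ∨ uC M a ∨ uY M a ∨ uV M a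
  XC : uX M a → ¬ uC M a
  XY : uX M a → ¬ uY M a
  XV : uX M a → ¬ uV M a
  CY : uC M a → ¬ uY M a
  CV : uC M a → ¬ uV M a
  YV : uY M a → ¬ uV M a
  I1 : bI M a b → uV M b
  I2 : bI M a b → ¬ uV M a
  N1 : bN M a b → uX M a
  N2 : bN M a b → uC M b
  R1 : tR M a b c → bN M a b
  R2 : tR M a b c → uY M c
  NN : uX M a → uC M b → bI M a d → bI M b d → bN M a b
  RR : uX M a → uC M b → uY M c → bI M a d → bI M b d → bI M c d → tR M a b c

/-- the class -/
def Good {α : Type} (M : Str Sy ar α) : Prop := ∀ a b c d, Ax M a b c d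

theorem Ax.pull {α β : Type} {M : Str Sy ar α} {f : β → α} {a b c d : β}
    (h : Ax M (f a) (f b) (f c) (f d)) : Ax (M.pull f) a b c d := by
  constructor <;> simp only [uX_pull, uC_pull, uY_pull, uV_pull, bI_pull, bN_pull, tR_pull]
  · exact h.srt
  · exact h.XC
  · exact h.XY
  · exact h.XV
  · exact h.CY
  · exact h.CV
  · exact h.YV
  · exact h.I1
  · exact h.I2
  · exact h.N1
  · exact h.N2
  · exact h.R1
  · exact h.R2
  · exact h.NN
  · exact h.RR

theorem Ax.of_pull {α β : Type} {M : Str Sy ar α} {f : β → α} {a b c d : β}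
    (h : Ax (M.pull f) a b c d) : Ax M (f a) (f b) (f c) (f d) := by
  constructor
  · simpa using h.srt
  · simpa using h.XC
  · simpa using h.XY
  · simpa using h.XV
  · simpa using h.CY
  · simpa using h.CV
  · simpa using h.YV
  · simpa using h.I1
  · simpa using h.I2
  · simpa using h.N1
  · simpa using h.N2
  · simpa using h.R1
  · simpa using h.R2
  · simpa using h.NN
  · simpa using h.RR

theorem Good.pull {α β : Type} {M : Str Sy ar α} (h : Good M) (f : β → α) : Good (M.pull f) :=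
  fun _ _ _ _ => (h _ _ _ _).pull

section amalg

variable {α : Type} (M : Str Sy ar α) {k : ℕ} (x : Fin k → α) (K : Str Sy ar (Option (Fin k)))

/-- the union of the two structures -/
def Un : Str Sy ar (Option α) := fun s t =>
  (∃ t0 : Fin (ar s) → α, t = some ∘ t0 ∧ M s t0) ∨
    (∃ t1 : Fin (ar s) → Option (Fin k), t = Option.map x ∘ t1 ∧ K s t1)

variable {M x K}

theorem Un_some (hx : Function.Injective x) (h : K.pull some = M.pull x) (s : Sy)
    (t : Fin (ar s) → α) : Un M x K s (some ∘ t) ↔ M s t := by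
  constructor
  · rintro (⟨t0, h1, h2⟩ | ⟨t1, h1, h2⟩)
    · have : t = t0 := by
        funext i
        exact Option.some_injective _ (congrFun h1 i)
      rwa [this]
    · have h3 : ∀ i, ∃ j, t1 i = some j ∧ t i = x j := by
        intro i
        have := congrFun h1 i
        simp only [Function.comp_apply] at this
        rcases hti : t1 i with _ | j
        · rw [hti] at this
          simp at this
        · rw [hti] at this
          exact ⟨j, rfl, by simpa using this⟩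
      choose g hg1 hg2 using h3
      have e1 : t1 = some ∘ g := funext hg1
      have e2 : t = x ∘ g := funext hg2
      rw [e2]
      rw [e1] at h2
      have := congrFun (congrFun h s) g
      exact (iff_of_eq this).1 h2
  · intro h2
    exact Or.inl ⟨t, rfl, h2⟩

theorem Un_map (hx : Function.Injective x) (h : K.pull some = M.pull x) (s : Sy)
    (t : Fin (ar s) → Option (Fin k)) : Un M x K s (Option.map x ∘ t) ↔ K s t := by
  have hinj : Function.Injective (Option.map x) := Option.map_injective hx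
  constructor
  · rintro (⟨t0, h1, h2⟩ | ⟨t1, h1, h2⟩)
    · have h3 : ∀ i, ∃ j, t i = some j ∧ t0 i = x j := by
        intro i
        have := congrFun h1 i
        simp only [Function.comp_apply] at this
        rcases hti : t i with _ | j
        · rw [hti] at this
          simp at this
        · rw [hti] at this
          exact ⟨j, rfl, by simpa using this.symm⟩
      choose g hg1 hg2 using h3
      have e1 : t = some ∘ g := funext hg1
      have e2 : t0 = x ∘ g := funext hg2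
      rw [e1]
      rw [e2] at h2
      have := congrFun (congrFun h s) g
      exact (iff_of_eq this).2 h2
    · have : t = t1 := by
        funext i
        exact hinj (congrFun h1 i)
      rwa [this]
  · intro h2
    exact Or.inr ⟨t, rfl, h2⟩

variable (M x K)

/-- the amalgam -/
def Am : Str Sy ar (Option α) := fun s => match s with
  | Sy.X => Un M x K Sy.X
  | Sy.C => Un M x K Sy.C
  | Sy.Y => Un M x K Sy.Y
  | Sy.V => Un M x K Sy.V
  | Sy.I => Un M x K Sy.I
  | Sy.N => fun t => Un M x K Sy.N t ∨ (uX (Un M x K) (t (0 : Fin 2)) ∧ uC (Un M x K) (t (1 : Fin 2)) ∧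
      ∃ v, bI (Un M x K) (t (0 : Fin 2)) v ∧ bI (Un M x K) (t (1 : Fin 2)) v)
  | Sy.R => fun t => Un M x K Sy.R t ∨ (uX (Un M x K) (t (0 : Fin 3)) ∧ uC (Un M x K) (t (1 : Fin 3)) ∧
      uY (Un M x K) (t (2 : Fin 3)) ∧
      ∃ v, bI (Un M x K) (t (0 : Fin 3)) v ∧ bI (Un M x K) (t (1 : Fin 3)) v ∧
        bI (Un M x K) (t (2 : Fin 3)) v)

variable {M x K}

section facts

variable (hx : Function.Injective x) (h : K.pull some = M.pull x)

include hx h

theorem uX_some (a : α) : uX (Un M x K) (some a) ↔ uX M a :=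
  (iff_of_eq (congrArg (Un M x K Sy.X) (comp1 some a).symm)).trans (Un_some hx h Sy.X _)
theorem uC_some (a : α) : uC (Un M x K) (some a) ↔ uC M a :=
  (iff_of_eq (congrArg (Un M x K Sy.C) (comp1 some a).symm)).trans (Un_some hx h Sy.C _)
theorem uY_some (a : α) : uY (Un M x K) (some a) ↔ uY M a :=
  (iff_of_eq (congrArg (Un M x K Sy.Y) (comp1 some a).symm)).trans (Un_some hx h Sy.Y _)
theorem uV_some (a : α) : uV (Un M x K) (some a) ↔ uV M a :=
  (iff_of_eq (congrArg (Un M x K Sy.V) (comp1 some a).symm)).trans (Un_some hx h Sy.V _)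
theorem bI_some (a b : α) : bI (Un M x K) (some a) (some b) ↔ bI M a b :=
  (iff_of_eq (congrArg (Un M x K Sy.I) (comp2 some a b).symm)).trans (Un_some hx h Sy.I _)
theorem bN_some (a b : α) : bN (Un M x K) (some a) (some b) ↔ bN M a b :=
  (iff_of_eq (congrArg (Un M x K Sy.N) (comp2 some a b).symm)).trans (Un_some hx h Sy.N _)
theorem tR_some (a b c : α) : tR (Un M x K) (some a) (some b) (some c) ↔ tR M a b c :=
  (iff_of_eq (congrArg (Un M x K Sy.R) (comp3 some a b c).symm)).trans (Un_some hx h Sy.R _)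

theorem uX_map (a : Option (Fin k)) : uX (Un M x K) (a.map x) ↔ uX K a :=
  (iff_of_eq (congrArg (Un M x K Sy.X) (comp1 (Option.map x) a).symm)).trans (Un_map hx h Sy.X _)
theorem uC_map (a : Option (Fin k)) : uC (Un M x K) (a.map x) ↔ uC K a :=
  (iff_of_eq (congrArg (Un M x K Sy.C) (comp1 (Option.map x) a).symm)).trans (Un_map hx h Sy.C _)
theorem uY_map (a : Option (Fin k)) : uY (Un M x K) (a.map x) ↔ uY K a :=
  (iff_of_eq (congrArg (Un M x K Sy.Y) (comp1 (Option.map x) a).symm)).trans (Un_map hx h Sy.Y _)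
theorem uV_map (a : Option (Fin k)) : uV (Un M x K) (a.map x) ↔ uV K a :=
  (iff_of_eq (congrArg (Un M x K Sy.V) (comp1 (Option.map x) a).symm)).trans (Un_map hx h Sy.V _)
theorem bI_map (a b : Option (Fin k)) : bI (Un M x K) (a.map x) (b.map x) ↔ bI K a b :=
  (iff_of_eq (congrArg (Un M x K Sy.I) (comp2 (Option.map x) a b).symm)).trans
    (Un_map hx h Sy.I _)
theorem bN_map (a b : Option (Fin k)) : bN (Un M x K) (a.map x) (b.map x) ↔ bN K a b :=
  (iff_of_eq (congrArg (Un M x K Sy.N) (comp2 (Option.map x) a b).symm)).trans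
    (Un_map hx h Sy.N _)
theorem tR_map (a b c : Option (Fin k)) :
    tR (Un M x K) (a.map x) (b.map x) (c.map x) ↔ tR K a b c :=
  (iff_of_eq (congrArg (Un M x K Sy.R) (comp3 (Option.map x) a b c).symm)).trans
    (Un_map hx h Sy.R _)

omit hx h in
theorem bI_cases {o v : Option α} (hI : bI (Un M x K) o v) :
    ((∃ a, o = some a) ∧ ∃ b, v = some b) ∨
      ((∃ p, o = Option.map x p) ∧ ∃ q, v = Option.map x q) := by
  rcases hI with ⟨t0, h1, -⟩ | ⟨t1, h1, -⟩
  · exact Or.inl ⟨⟨_, congrFun h1 (0 : Fin 2)⟩, ⟨_, congrFun h1 (1 : Fin 2)⟩⟩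
  · exact Or.inr ⟨⟨_, congrFun h1 (0 : Fin 2)⟩, ⟨_, congrFun h1 (1 : Fin 2)⟩⟩

omit hx h in
theorem bN_cases {o v : Option α} (hI : bN (Un M x K) o v) :
    ((∃ a, o = some a) ∧ ∃ b, v = some b) ∨
      ((∃ p, o = Option.map x p) ∧ ∃ q, v = Option.map x q) := by
  rcases hI with ⟨t0, h1, -⟩ | ⟨t1, h1, -⟩
  · exact Or.inl ⟨⟨_, congrFun h1 (0 : Fin 2)⟩, ⟨_, congrFun h1 (1 : Fin 2)⟩⟩
  · exact Or.inr ⟨⟨_, congrFun h1 (0 : Fin 2)⟩, ⟨_, congrFun h1 (1 : Fin 2)⟩⟩

omit hx h in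
theorem tR_cases {o v w : Option α} (hI : tR (Un M x K) o v w) :
    ((∃ a, o = some a) ∧ (∃ b, v = some b) ∧ ∃ c, w = some c) ∨
      ((∃ p, o = Option.map x p) ∧ (∃ q, v = Option.map x q) ∧ ∃ r, w = Option.map x r) := by
  rcases hI with ⟨t0, h1, -⟩ | ⟨t1, h1, -⟩
  · exact Or.inl ⟨⟨_, congrFun h1 (0 : Fin 3)⟩, ⟨_, congrFun h1 (1 : Fin 3)⟩,
      ⟨_, congrFun h1 (2 : Fin 3)⟩⟩
  · exact Or.inr ⟨⟨_, congrFun h1 (0 : Fin 3)⟩, ⟨_, congrFun h1 (1 : Fin 3)⟩,
      ⟨_, congrFun h1 (2 : Fin 3)⟩⟩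

variable (hM : Good M) (hK : Good K)

include hM hK

theorem forcedN {o₁ o₂ v : Option α}
    (ho : ((∃ a, o₁ = some a) ∧ ∃ b, o₂ = some b) ∨
      ((∃ p, o₁ = Option.map x p) ∧ ∃ q, o₂ = Option.map x q))
    (h1 : uX (Un M x K) o₁) (h2 : uC (Un M x K) o₂) (h3 : bI (Un M x K) o₁ v)
    (h4 : bI (Un M x K) o₂ v) : bN (Un M x K) o₁ o₂ := by
  have cM : (∃ a, o₁ = some a) → (∃ b, o₂ = some b) → (∃ c, v = some c) →
      bN (Un M x K) o₁ o₂ := by
    rintro ⟨a, rfl⟩ ⟨b, rfl⟩ ⟨c, rfl⟩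
    rw [uX_some hx h] at h1
    rw [uC_some hx h] at h2
    rw [bI_some hx h] at h3 h4
    rw [bN_some hx h]
    exact (hM a b a c).NN h1 h2 h3 h4
  have cK : (∃ a, o₁ = Option.map x a) → (∃ b, o₂ = Option.map x b) →
      (∃ c, v = Option.map x c) → bN (Un M x K) o₁ o₂ := by
    rintro ⟨a, rfl⟩ ⟨b, rfl⟩ ⟨c, rfl⟩
    rw [uX_map hx h] at h1
    rw [uC_map hx h] at h2
    rw [bI_map hx h] at h3 h4
    rw [bN_map hx h]
    exact (hK a b a c).NN h1 h2 h3 h4
  rcases ho with ⟨a1, a2⟩ | ⟨a1, a2⟩ <;> rcases bI_cases h3 with ⟨b1, b2⟩ | ⟨b1, b2⟩ <;>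
    rcases bI_cases h4 with ⟨c1, c2⟩ | ⟨c1, c2⟩ <;>
    first
      | exact cM (by assumption) (by assumption) (by assumption)
      | exact cK (by assumption) (by assumption) (by assumption)

theorem forcedR {o₁ o₂ o₃ v : Option α}
    (ho : ((∃ a, o₁ = some a) ∧ (∃ b, o₂ = some b) ∧ ∃ c, o₃ = some c) ∨
      ((∃ p, o₁ = Option.map x p) ∧ (∃ q, o₂ = Option.map x q) ∧ ∃ r, o₃ = Option.map x r))
    (h1 : uX (Un M x K) o₁) (h2 : uC (Un M x K) o₂) (h2' : uY (Un M x K) o₃)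
    (h3 : bI (Un M x K) o₁ v)
    (h4 : bI (Un M x K) o₂ v) (h5 : bI (Un M x K) o₃ v) : tR (Un M x K) o₁ o₂ o₃ := by
  have cM : (∃ a, o₁ = some a) → (∃ b, o₂ = some b) → (∃ c, o₃ = some c) → (∃ c, v = some c) →
      tR (Un M x K) o₁ o₂ o₃ := by
    rintro ⟨a, rfl⟩ ⟨b, rfl⟩ ⟨c, rfl⟩ ⟨d, rfl⟩
    rw [uX_some hx h] at h1
    rw [uC_some hx h] at h2
    rw [uY_some hx h] at h2'
    rw [bI_some hx h] at h3 h4 h5
    rw [tR_some hx h]
    exact (hM a b c d).RR h1 h2 h2' h3 h4 h5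
  have cK : (∃ a, o₁ = Option.map x a) → (∃ b, o₂ = Option.map x b) →
      (∃ c, o₃ = Option.map x c) → (∃ c, v = Option.map x c) → tR (Un M x K) o₁ o₂ o₃ := by
    rintro ⟨a, rfl⟩ ⟨b, rfl⟩ ⟨c, rfl⟩ ⟨d, rfl⟩
    rw [uX_map hx h] at h1
    rw [uC_map hx h] at h2
    rw [uY_map hx h] at h2'
    rw [bI_map hx h] at h3 h4 h5
    rw [tR_map hx h]
    exact (hK a b c d).RR h1 h2 h2' h3 h4 h5
  rcases ho with ⟨a1, a2, a3⟩ | ⟨a1, a2, a3⟩ <;> rcases bI_cases h3 with ⟨b1, b2⟩ | ⟨b1, b2⟩ <;>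
    rcases bI_cases h4 with ⟨c1, c2⟩ | ⟨c1, c2⟩ <;>
    rcases bI_cases h5 with ⟨d1, d2⟩ | ⟨d1, d2⟩ <;>
    first
      | exact cM (by assumption) (by assumption) (by assumption) (by assumption)
      | exact cK (by assumption) (by assumption) (by assumption) (by assumption)

theorem Am_some : (Am M x K).pull some = M := by
  apply str_ext
  · intro a; rw [uX_pull]; exact uX_some hx h a
  · intro a; rw [uC_pull]; exact uC_some hx h a
  · intro a; rw [uY_pull]; exact uY_some hx h a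
  · intro a; rw [uV_pull]; exact uV_some hx h a
  · intro a b; rw [bI_pull]; exact bI_some hx h a b
  · intro a b
    rw [bN_pull, ← bN_some hx h]
    constructor
    · rintro (h1 | ⟨h1, h2, v, h3, h4⟩)
      · exact h1
      · exact forcedN hx h hM hK (Or.inl ⟨⟨a, rfl⟩, ⟨b, rfl⟩⟩) h1 h2 h3 h4
    · exact Or.inl
  · intro a b c
    rw [tR_pull, ← tR_some hx h]
    constructor
    · rintro (h1 | ⟨h1, h2, h2', v, h3, h4, h5⟩)
      · exact h1
      · exact forcedR hx h hM hK (Or.inl ⟨⟨a, rfl⟩, ⟨b, rfl⟩, ⟨c, rfl⟩⟩) h1 h2 h2' h3 h4 h5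
    · exact Or.inl

theorem Am_map : (Am M x K).pull (Option.map x) = K := by
  apply str_ext
  · intro a; rw [uX_pull]; exact uX_map hx h a
  · intro a; rw [uC_pull]; exact uC_map hx h a
  · intro a; rw [uY_pull]; exact uY_map hx h a
  · intro a; rw [uV_pull]; exact uV_map hx h a
  · intro a b; rw [bI_pull]; exact bI_map hx h a b
  · intro a b
    rw [bN_pull, ← bN_map hx h]
    constructor
    · rintro (h1 | ⟨h1, h2, v, h3, h4⟩)
      · exact h1
      · exact forcedN hx h hM hK (Or.inr ⟨⟨a, rfl⟩, ⟨b, rfl⟩⟩) h1 h2 h3 h4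
    · exact Or.inl
  · intro a b c
    rw [tR_pull, ← tR_map hx h]
    constructor
    · rintro (h1 | ⟨h1, h2, h2', v, h3, h4, h5⟩)
      · exact h1
      · exact forcedR hx h hM hK (Or.inr ⟨⟨a, rfl⟩, ⟨b, rfl⟩, ⟨c, rfl⟩⟩) h1 h2 h2' h3 h4 h5
    · exact Or.inl

/-- unary and binary facts of the union -/
theorem Am_good : Good (Am M x K) := by
  -- the axioms concerning only the union
  have hpt : ∀ o : Option α, (∃ a, o = some a) ∨ ∃ p, o = Option.map x p := by
    rintro (_ | a)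
    · exact Or.inr ⟨none, rfl⟩
    · exact Or.inl ⟨a, rfl⟩
  intro a b c d
  have hs : (uX (Un M x K) a ∨ uC (Un M x K) a ∨ uY (Un M x K) a ∨ uV (Un M x K) a) ∧
      (uX (Un M x K) a → ¬ uC (Un M x K) a) ∧ (uX (Un M x K) a → ¬ uY (Un M x K) a) ∧
      (uX (Un M x K) a → ¬ uV (Un M x K) a) ∧ (uC (Un M x K) a → ¬ uY (Un M x K) a) ∧
      (uC (Un M x K) a → ¬ uV (Un M x K) a) ∧ (uY (Un M x K) a → ¬ uV (Un M x K) a) := by
    rcases hpt a with ⟨a, rfl⟩ | ⟨p, rfl⟩
    · rw [uX_some hx h, uC_some hx h, uY_some hx h, uV_some hx h]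
      have := hM a a a a
      exact ⟨this.srt, this.XC, this.XY, this.XV, this.CY, this.CV, this.YV⟩
    · rw [uX_map hx h, uC_map hx h, uY_map hx h, uV_map hx h]
      have := hK p p p p
      exact ⟨this.srt, this.XC, this.XY, this.XV, this.CY, this.CV, this.YV⟩
  have hI : bI (Un M x K) a b → uV (Un M x K) b ∧ ¬ uV (Un M x K) a := by
    intro h1
    rcases bI_cases h1 with ⟨⟨a, rfl⟩, ⟨b, rfl⟩⟩ | ⟨⟨a, rfl⟩, ⟨b, rfl⟩⟩
    · rw [bI_some hx h] at h1
      rw [uV_some hx h, uV_some hx h]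
      exact ⟨(hM a b a a).I1 h1, (hM a b a a).I2 h1⟩
    · rw [bI_map hx h] at h1
      rw [uV_map hx h, uV_map hx h]
      exact ⟨(hK a b a a).I1 h1, (hK a b a a).I2 h1⟩
  have hN : bN (Un M x K) a b → uX (Un M x K) a ∧ uC (Un M x K) b := by
    intro h1
    rcases bN_cases h1 with ⟨⟨a, rfl⟩, ⟨b, rfl⟩⟩ | ⟨⟨a, rfl⟩, ⟨b, rfl⟩⟩
    · rw [bN_some hx h] at h1
      rw [uX_some hx h, uC_some hx h]
      exact ⟨(hM a b a a).N1 h1, (hM a b a a).N2 h1⟩
    · rw [bN_map hx h] at h1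
      rw [uX_map hx h, uC_map hx h]
      exact ⟨(hK a b a a).N1 h1, (hK a b a a).N2 h1⟩
  have hR : tR (Un M x K) a b c → bN (Un M x K) a b ∧ uY (Un M x K) c := by
    intro h1
    rcases tR_cases h1 with ⟨⟨a, rfl⟩, ⟨b, rfl⟩, ⟨c, rfl⟩⟩ | ⟨⟨a, rfl⟩, ⟨b, rfl⟩, ⟨c, rfl⟩⟩
    · rw [tR_some hx h] at h1
      rw [bN_some hx h, uY_some hx h]
      exact ⟨(hM a b c a).R1 h1, (hM a b c a).R2 h1⟩
    · rw [tR_map hx h] at h1
      rw [bN_map hx h, uY_map hx h]
      exact ⟨(hK a b c a).R1 h1, (hK a b c a).R2 h1⟩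
  obtain ⟨s1, s2, s3, s4, s5, s6, s7⟩ := hs
  exact {
    srt := s1
    XC := s2
    XY := s3
    XV := s4
    CY := s5
    CV := s6
    YV := s7
    I1 := fun h1 => (hI h1).1
    I2 := fun h1 => (hI h1).2
    N1 := by
      rintro (h1 | ⟨h1, -⟩)
      · exact (hN h1).1
      · exact h1
    N2 := by
      rintro (h1 | ⟨-, h1, -⟩)
      · exact (hN h1).2
      · exact h1
    R1 := by
      rintro (h1 | ⟨h1, h2, -, v, h3, h4, -⟩)
      · exact Or.inl (hR h1).1
      · exact Or.inr ⟨h1, h2, v, h3, h4⟩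
    R2 := by
      rintro (h1 | ⟨-, -, h1, -⟩)
      · exact (hR h1).2
      · exact h1
    NN := fun h1 h2 h3 h4 => Or.inr ⟨h1, h2, d, h3, h4⟩
    RR := fun h1 h2 h3 h4 h5 h6 => Or.inr ⟨h1, h2, h3, d, h4, h5, h6⟩ }

end facts

end amalg

/-- every quadruple factors through an injective tuple -/
theorem exists_factor {α : Type} (z : Fin 4 → α) :
    ∃ (k : ℕ) (f : Fin k → α) (g : Fin 4 → Fin k), Function.Injective f ∧ z = f ∘ g := by
  obtain ⟨k, ⟨e⟩⟩ := Finite.exists_equiv_fin (Set.range z)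
  refine ⟨k, fun i => (e.symm i : α), fun i => e ⟨z i, i, rfl⟩,
    Subtype.val_injective.comp e.symm.injective, ?_⟩
  funext i
  simp

theorem isAmalg : IsAmalg (S := Sy) (ar := ar) (fun {α} M => @Good α M) where
  pull := fun M f _ hM => hM.pull f
  fin := by
    intro α M hM a b c d
    obtain ⟨k, f, g, hf, hz⟩ := exists_factor (![a, b, c, d] : Fin 4 → α)
    have h1 := (hM k f hf (g 0) (g 1) (g 2) (g 3)).of_pull
    have e0 : f (g 0) = a := (congrFun hz 0).symm
    have e1 : f (g 1) = b := (congrFun hz 1).symm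
    have e2 : f (g 2) = c := (congrFun hz 2).symm
    have e3 : f (g 3) = d := (congrFun hz 3).symm
    rwa [e0, e1, e2, e3] at h1
  one := by
    refine ⟨fun s _ => s = Sy.X, fun a b c d => ?_⟩
    constructor <;> simp [uX, uC, uY, uV, bI, bN, tR]
  amalg := fun M hM k x hx K hK h =>
    ⟨Am M x K, Am_good hx h hM hK, Am_some hx h hM hK, Am_map hx h hM hK⟩

end Pool.Agent.H702R3.Gen.Cls
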