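import Pool.Agent.H702R3.Gen.Basic

/-!
# Generic structures: transfer of the extension axioms and quantifier elimination
-/

set_option autoImplicit false

open FirstOrder FirstOrder.Language FirstOrder.Language.Structure

namespace Pool.Agent.H702R3.Gen

/-- the relational language with symbols `S` of arities `ar` -/
def Lg (S : Type) (ar : S → ℕ) : FirstOrder.Language.{0, 0} := ⟨fun _ => Empty, fun n => {s : S // ar s = n}⟩

variable {S : Type} {ar : S → ℕ}

/-- the relations of a structure -/
def str (N : Type) [(Lg S ar).Structure N] : Str S ar N :=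
  fun s t => RelMap (L := Lg S ar) (⟨s, rfl⟩ : (Lg S ar).Relations (ar s)) t

/-- the structure given by relations -/
@[reducible] def Str.toStructure {α : Type} (M : Str S ar α) : (Lg S ar).Structure α where
  funMap := fun f _ => Empty.elim f
  RelMap := fun r t => M r.1 (fun i => t (Fin.cast r.2 i))

theorem str_toStructure {α : Type} (M : Str S ar α) :
    @str S ar α M.toStructure = M := rfl

/-- same equalities and relations -/
def Same {N N' : Type} [(Lg S ar).Structure N] [(Lg S ar).Structure N'] {κ : Type} (x : κ → N)
    (x' : κ → N') : Prop :=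
  (∀ i j, x i = x j ↔ x' i = x' j) ∧ (str N : Str S ar N).pull x = (str N' : Str S ar N').pull x'

section same

variable {N N' : Type} [(Lg S ar).Structure N] [(Lg S ar).Structure N'] {κ κ' : Type}

theorem Same.comp {x : κ → N} {x' : κ → N'} (h : Same (ar := ar) x x') (g : κ' → κ) :
    Same (ar := ar) (x ∘ g) (x' ∘ g) := by
  refine ⟨fun i j => h.1 _ _, ?_⟩
  rw [← Str.pull_pull, ← Str.pull_pull, h.2]

theorem Same.symm {x : κ → N} {x' : κ → N'} (h : Same (ar := ar) x x') :
    Same (ar := ar) x' x := ⟨fun i j => (h.1 i j).symm, h.2.symm⟩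

/-- the back and forth step -/
theorem back {Good : ∀ {α : Type}, Str S ar α → Prop} (hG : IsAmalg Good)
    (hN : Good (str N : Str S ar N)) (hE : Ext Good (str N' : Str S ar N')) [Finite κ]
    {x : κ → N} {x' : κ → N'} (h : Same (ar := ar) x x') (a : N) :
    ∃ a' : N', Same (ar := ar) (ocons x a) (ocons x' a') := by
  classical
  by_cases ha : ∃ i, x i = a
  · obtain ⟨i, rfl⟩ := ha
    refine ⟨x' i, ?_⟩
    have h1 := h.comp (fun o : Option κ => o.elim i id)
    have e1 : x ∘ (fun o : Option κ => o.elim i id) = ocons x (x i) := by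
      funext o; cases o <;> rfl
    have e2 : x' ∘ (fun o : Option κ => o.elim i id) = ocons x' (x' i) := by
      funext o; cases o <;> rfl
    rwa [e1, e2] at h1
  · push Not at ha
    obtain ⟨k, ⟨e⟩⟩ := Finite.exists_equiv_fin (Set.range x)
    have hsec : ∀ r : Set.range x, ∃ i, x i = r := fun r => r.2
    choose s hs using hsec
    let y : Fin k → κ := fun i => s (e.symm i)
    let l : κ → Fin k := fun i => e ⟨x i, i, rfl⟩
    have hy : ∀ i, x (y (l i)) = x i := fun i => by simp [y, l, hs]
    have hxy : Function.Injective (x ∘ y) := by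
      intro i j hij
      simp only [Function.comp_apply, y, hs] at hij
      exact e.symm.injective (Subtype.ext hij)
    have hxy' : Function.Injective (x' ∘ y) := by
      intro i j hij
      exact hxy ((h.1 _ _).2 hij)
    have hinj : Function.Injective (ocons (x ∘ y) a) := ocons_injective hxy fun i => ha _
    obtain ⟨a', ha', hb⟩ := hE k (x' ∘ y) hxy' ((str N : Str S ar N).pull (ocons (x ∘ y) a))
      (hG.pull _ _ hinj hN) (by
        rw [Str.pull_pull, ocons_comp_some]
        exact (h.comp y).2)
    refine ⟨a', ?_⟩
    have h1 : Same (ar := ar) (ocons (x ∘ y) a) (ocons (x' ∘ y) a') :=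
      ⟨fun i j => by rw [hinj.eq_iff, (ocons_injective hxy' ha').eq_iff], hb.symm⟩
    have h2 := h1.comp (Option.map l)
    have e1 : ocons (x ∘ y) a ∘ Option.map l = ocons x a := by
      funext o
      cases o with
      | none => rfl
      | some i => exact hy i
    have e2 : ocons (x' ∘ y) a' ∘ Option.map l = ocons x' a' := by
      funext o
      cases o with
      | none => rfl
      | some i => exact (h.1 _ _).1 (hy i)
    rwa [e1, e2] at h2

theorem term_eq {κ : Type} {α : Type} [(Lg S ar).Structure α] (t : (Lg S ar).Term κ) :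
    ∃ i, ∀ x : κ → α, t.realize x = x i := by
  cases t with
  | var i => exact ⟨i, fun x => rfl⟩
  | func f _ => exact Empty.elim f

theorem term_var {κ : Type} (t : (Lg S ar).Term κ) : ∃ i, t = Term.var i := by
  cases t with
  | var i => exact ⟨i, rfl⟩
  | func f _ => exact Empty.elim f

/-- tuples with the same quantifier-free type have the same type (finite index type) -/
theorem qe_bounded {Good : ∀ {α : Type}, Str S ar α → Prop} (hG : IsAmalg Good)
    (hN : Good (str N : Str S ar N)) (hNE : Ext Good (str N : Str S ar N))
    (hN' : Good (str N' : Str S ar N')) (hNE' : Ext Good (str N' : Str S ar N'))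
    {ι : Type} [Finite ι] {n : ℕ} (φ : (Lg S ar).BoundedFormula ι n) :
    ∀ (v : ι → N) (w : Fin n → N) (v' : ι → N') (w' : Fin n → N'),
      Same (ar := ar) (Sum.elim v w) (Sum.elim v' w') → (φ.Realize v w ↔ φ.Realize v' w') := by
  induction φ with
  | falsum => intro v w v' w' _; exact Iff.rfl
  | equal t₁ t₂ =>
    intro v w v' w' h
    obtain ⟨i, rfl⟩ := term_var t₁
    obtain ⟨j, rfl⟩ := term_var t₂
    exact h.1 i j
  | rel R ts =>
    intro v w v' w' h
    have hts : ∀ i, ∃ j, ts i = Term.var j := fun i => term_var (ts i)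
    choose f hf using hts
    obtain ⟨s, rfl⟩ := R
    have := congrFun (congrFun h.2 s) f
    have hr : ∀ (A : Type) [(Lg S ar).Structure A] (z : ι ⊕ Fin _ → A),
        (fun i => (ts i).realize z) = z ∘ f := by
      intro A _ z
      funext i
      rw [hf]
      rfl
    simp only [BoundedFormula.Realize, hr]
    exact iff_of_eq this
  | imp _ _ ih1 ih2 =>
    intro v w v' w' h
    simp only [BoundedFormula.Realize, ih1 v w v' w' h, ih2 v w v' w' h]
  | @all n φ ih =>
    intro v w v' w' h
    let g : ι ⊕ Fin (n + 1) → Option (ι ⊕ Fin n) := fun o => match o with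
      | Sum.inl i => some (Sum.inl i)
      | Sum.inr j => Fin.lastCases none (fun j => some (Sum.inr j)) j
    have key : ∀ (A : Type) (v : ι → A) (w : Fin n → A) (a : A),
        ocons (Sum.elim v w) a ∘ g = Sum.elim v (Fin.snoc w a) := by
      intro A v w a
      funext o
      rcases o with i | j
      · rfl
      · refine Fin.lastCases ?_ (fun j => ?_) j
        · simp [g]
        · simp [g]
    simp only [BoundedFormula.Realize]
    constructor
    · intro H a'
      obtain ⟨a, ha⟩ := back hG hN' hNE h.symm a'
      have h1 := (ha.comp g).symm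
      rw [key, key] at h1
      exact (ih _ _ _ _ h1).1 (H a)
    · intro H a
      obtain ⟨a', ha⟩ := back hG hN hNE' h a
      have h1 := ha.comp g
      rw [key, key] at h1
      exact (ih _ _ _ _ h1).2 (H a')

/-- tuples with the same quantifier-free type have the same type -/
theorem qe {Good : ∀ {α : Type}, Str S ar α → Prop} (hG : IsAmalg Good)
    (hN : Good (str N : Str S ar N)) (hNE : Ext Good (str N : Str S ar N))
    (hN' : Good (str N' : Str S ar N')) (hNE' : Ext Good (str N' : Str S ar N'))
    {ι : Type} (φ : (Lg S ar).Formula ι) (v : ι → N) (v' : ι → N')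
    (h : Same (ar := ar) v v') : φ.Realize v ↔ φ.Realize v' := by
  classical
  have e1 : ∀ (A : Type) [(Lg S ar).Structure A] (z : ι → A), φ.Realize z ↔
      (φ.restrictFreeVar (id : φ.freeVarFinset → φ.freeVarFinset)).Realize (z ∘ (↑)) default := by
    intro A _ z
    exact (BoundedFormula.realize_restrictFreeVar (L := Lg S ar) (φ := φ) (f := id)
      (v := z ∘ (↑)) z (fun a => rfl)).symm
  rw [e1 N v, e1 N' v']
  refine qe_bounded hG hN hNE hN' hNE' _ _ _ _ _ ?_
  have h1 := h.comp (fun i : φ.freeVarFinset => (i : ι))
  have h2 := h1.comp (fun o : φ.freeVarFinset ⊕ Fin 0 => o.elim id (fun i => i.elim0))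
  have key : ∀ (A : Type) (z : φ.freeVarFinset → A) (w : Fin 0 → A),
      z ∘ (fun o : φ.freeVarFinset ⊕ Fin 0 => o.elim id (fun i => i.elim0)) = Sum.elim z w := by
    intro A z w
    funext o
    rcases o with i | j
    · rfl
    · exact j.elim0
  rw [key _ _ default, key _ _ default] at h2
  exact h2

end same

end Pool.Agent.H702R3.Gen
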