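import Pool.Agent.H702R3.Gen.Transfer

/-!
# Generic structures: realising quantifier-free types in elementary extensions
-/

set_option autoImplicit false

open FirstOrder FirstOrder.Language FirstOrder.Language.Structure

namespace Pool.Agent.H702R3.Gen

variable {S : Type} {ar : S → ℕ}

theorem Ext.finite {Good : ∀ {α : Type}, Str S ar α → Prop} (hG : IsAmalg Good) {α : Type}
    {M : Str S ar α} (hM : Ext Good M) {κ : Type} [Finite κ] (x : κ → α)
    (hx : Function.Injective x) (K : Str S ar (Option κ)) (hK : Good K)
    (hKx : K.pull some = M.pull x) :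
    ∃ b, Function.Injective (ocons x b) ∧ M.pull (ocons x b) = K := by
  obtain ⟨k, ⟨e⟩⟩ := Finite.exists_equiv_fin κ
  obtain ⟨b, hb1, hb2⟩ := hM k (x ∘ e.symm) (hx.comp e.symm.injective)
    (K.pull (Option.map e.symm)) (hG.pull K _ (Option.map_injective e.symm.injective) hK) (by
      rw [Str.pull_pull, ← Str.pull_pull M, ← hKx, Str.pull_pull]
      rfl)
  refine ⟨b, ocons_injective hx fun i => ?_, ?_⟩
  · have := hb1 (e i)
    simpa using this
  · have h1 := congrArg (fun Z : Str S ar (Option (Fin k)) => Z.pull (Option.map e)) hb2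
    simp only [Str.pull_pull] at h1
    have e1 : ocons (x ∘ e.symm) b ∘ Option.map e = ocons x b := by
      funext o
      cases o with
      | none => rfl
      | some i => simp
    have e2 : (Option.map e.symm ∘ Option.map e : Option κ → Option κ) = id := by
      funext o
      cases o with
      | none => rfl
      | some i => simp
    rw [e1, e2] at h1
    exact h1

theorem Ext.many {Good : ∀ {α : Type}, Str S ar α → Prop} (hG : IsAmalg Good) {α : Type}
    {M : Str S ar α} (hM : Ext Good M) (ι : Type) [Finite ι] :
    ∀ {κ : Type} [Finite κ] (x : κ → α) (_ : Function.Injective x) (K : Str S ar (ι ⊕ κ))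
      (_ : Good K) (_ : K.pull Sum.inr = M.pull x),
      ∃ a : ι → α, Function.Injective (Sum.elim a x) ∧ M.pull (Sum.elim a x) = K := by
  induction ι using Finite.induction_empty_option with
  | @of_equiv ι ι' e ih =>
    intro κ _ x hx K hK hKx
    obtain ⟨a, ha1, ha2⟩ := ih x hx (K.pull (Sum.map e id))
      (hG.pull K _ (Sum.map_injective.2 ⟨e.injective, Function.injective_id⟩) hK) (by
        rw [Str.pull_pull, ← hKx]
        rfl)
    have e1 : Sum.elim (a ∘ e.symm) x = Sum.elim a x ∘ Sum.map e.symm id := by
      funext o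
      rcases o with i | i <;> rfl
    refine ⟨a ∘ e.symm, ?_, ?_⟩
    · rw [e1]
      exact ha1.comp (Sum.map_injective.2 ⟨e.symm.injective, Function.injective_id⟩)
    · rw [e1, ← Str.pull_pull, ha2, Str.pull_pull]
      have e2 : (Sum.map e id ∘ Sum.map e.symm id : ι' ⊕ κ → ι' ⊕ κ) = id := by
        funext o
        rcases o with i | i <;> simp
      rw [e2]
      rfl
  | h_empty =>
    intro κ _ x hx K hK hKx
    have e1 : ∀ a : PEmpty → α, Sum.elim a x = x ∘ (Sum.elim (fun i => i.elim) id) := by
      intro a
      funext o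
      rcases o with i | i
      · exact i.elim
      · rfl
    refine ⟨fun i => i.elim, ?_, ?_⟩
    · rw [e1]
      refine hx.comp ?_
      rintro (i | i) (j | j) hij
      · exact i.elim
      · exact i.elim
      · exact j.elim
      · exact congrArg _ hij
    · rw [e1, ← Str.pull_pull, ← hKx, Str.pull_pull]
      have e2 : (Sum.inr ∘ Sum.elim (fun i => i.elim) id : PEmpty ⊕ κ → PEmpty ⊕ κ) = id := by
        funext o
        rcases o with i | i
        · exact i.elim
        · rfl
      rw [e2]
      rfl
  | @h_option ι _ ih =>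
    intro κ _ x hx K hK hKx
    let f : ι ⊕ κ → Option ι ⊕ κ := Sum.map some id
    have hf : Function.Injective f :=
      Sum.map_injective.2 ⟨Option.some_injective ι, Function.injective_id⟩
    obtain ⟨a, ha1, ha2⟩ := ih x hx (K.pull f) (hG.pull K _ hf hK) (by
      rw [Str.pull_pull, ← hKx]
      rfl)
    let g : Option (ι ⊕ κ) → Option ι ⊕ κ := fun o => o.elim (Sum.inl none) f
    have hg : Function.Injective g := by
      rintro (_ | i) (_ | j) hij
      · rfl
      · rcases j with j | j <;> simp [g, f] at hij
      · rcases i with i | i <;> simp [g, f] at hij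
      · exact congrArg some (hf hij)
    let g' : Option ι ⊕ κ → Option (ι ⊕ κ) := fun o => match o with
      | Sum.inl none => none
      | Sum.inl (some i) => some (Sum.inl i)
      | Sum.inr i => some (Sum.inr i)
    obtain ⟨b, hb1, hb2⟩ := hM.finite hG (Sum.elim a x) ha1 (K.pull g) (hG.pull K _ hg hK) (by
      rw [Str.pull_pull, ha2]
      rfl)
    have e1 : Sum.elim (ocons a b) x = ocons (Sum.elim a x) b ∘ g' := by
      funext o
      rcases o with (_ | i) | i <;> rfl
    have hg' : Function.Injective g' := by
      rintro ((_ | i) | i) ((_ | j) | j) hij <;> simp_all [g']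
    refine ⟨ocons a b, ?_, ?_⟩
    · rw [e1]
      exact hb1.comp hg'
    · rw [e1, ← Str.pull_pull, hb2, Str.pull_pull]
      have e2 : g ∘ g' = id := by
        funext o
        rcases o with (_ | i) | i <;> rfl
      rw [e2]
      rfl

/-- quantifier-free types over a generic structure are realised in elementary extensions -/
theorem realize_ext {Good : ∀ {α : Type}, Str S ar α → Prop} (hG : IsAmalg Good)
    (U : Type) [(Lg S ar).Structure U] [Nonempty U] (hU : Ext Good (str U : Str S ar U))
    {ι : Type} [Finite ι] (K : Str S ar (ι ⊕ U)) (hK : Good K)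
    (hKU : K.pull Sum.inr = (str U : Str S ar U)) :
    ∃ (N : Type) (_ : (Lg S ar).Structure N) (j : U ↪ₑ[Lg S ar] N) (a : ι → N),
      Function.Injective (Sum.elim a j) ∧ (str N : Str S ar N).pull (Sum.elim a j) = K := by
  classical
  have h1 : ∀ F : Finset U, ∃ a : ι → U,
      Function.Injective (Sum.elim a (fun u : F => (u : U))) ∧
      (str U : Str S ar U).pull (Sum.elim a (fun u : F => (u : U))) =
        K.pull (Sum.map id (fun u : F => (u : U))) := by
    intro F
    refine hU.many hG ι (fun u : F => (u : U)) Subtype.val_injective _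
      (hG.pull K _ (Sum.map_injective.2 ⟨Function.injective_id, Subtype.val_injective⟩) hK) ?_
    rw [Str.pull_pull, ← hKU]
    rfl
  choose a ha1 ha2 using h1
  let D : Ultrafilter (Finset U) := Ultrafilter.of Filter.atTop
  have hD : ∀ F₀ : Finset U, ∀ᶠ F in (D : Filter (Finset U)), F₀ ⊆ F := by
    intro F₀
    exact (Ultrafilter.of_le (Filter.atTop : Filter (Finset U))) (Filter.mem_atTop F₀)
  let N := (D : Filter (Finset U)).Product (fun _ => U)
  let c : (Finset U → U) → N := fun f => (f : (D : Filter (Finset U)).Product (fun _ => U))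
  let j : U ↪ₑ[Lg S ar] N :=
    { toFun := fun u => c (fun _ => u)
      map_formula' := by
        intro n φ x
        have := Ultraproduct.realize_formula_cast (u := D) (M := fun _ : Finset U => U) φ
          (fun i _ => x i)
        exact this.trans (by simp) }
  let z : ι ⊕ U → Finset U → U := Sum.elim (fun i F => a F i) (fun u _ => u)
  have hz : (Sum.elim (fun i => c (fun F => a F i)) j : ι ⊕ U → N) = fun o => c (z o) := by
    funext o
    rcases o with i | u <;> rfl
  -- finite support
  have hsupp : ∀ {n : ℕ} (t : Fin n → ι ⊕ U), ∃ F₀ : Finset U, ∀ F, F₀ ⊆ F →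
      ∃ t' : Fin n → ι ⊕ F, t = Sum.map id (fun u : F => (u : U)) ∘ t' ∧
        (fun i => z (t i) F) = Sum.elim (a F) (fun u : F => (u : U)) ∘ t' := by
    intro n t
    refine ⟨Finset.univ.biUnion (fun i => match t i with
      | Sum.inl _ => ∅
      | Sum.inr u => {u}), fun F hF => ?_⟩
    have h2 : ∀ i, ∃ o : ι ⊕ F, t i = Sum.map id (fun u : F => (u : U)) o ∧
        z (t i) F = Sum.elim (a F) (fun u : F => (u : U)) o := by
      intro i
      rcases hti : t i with y | u
      · exact ⟨Sum.inl y, rfl, rfl⟩
      · have hu : u ∈ F := hF (Finset.mem_biUnion.2 ⟨i, Finset.mem_univ _, by simp [hti]⟩)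
        exact ⟨Sum.inr ⟨u, hu⟩, rfl, rfl⟩
    choose t' ht1 ht2 using h2
    exact ⟨t', funext ht1, funext ht2⟩
  refine ⟨N, inferInstance, j, fun i => c (fun F => a F i), ?_, ?_⟩
  · rw [hz]
    intro o o' hoo
    by_contra hne
    obtain ⟨F₀, hF₀⟩ := hsupp ![o, o']
    have h3 : ∀ᶠ F in (D : Filter (Finset U)), z o F = z o' F := Quotient.exact hoo
    obtain ⟨F, hF1, hF2⟩ := (h3.and (hD F₀)).exists
    obtain ⟨t', ht1, ht2⟩ := hF₀ F hF2
    have h4 := congrFun ht2 0
    have h5 := congrFun ht2 1
    simp only [Matrix.cons_val_zero, Matrix.cons_val_one, Function.comp_apply] at h4 h5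
    have h6 := ha1 F (h4.symm.trans (hF1.trans h5))
    have h7 := congrFun ht1 0
    have h8 := congrFun ht1 1
    simp only [Matrix.cons_val_zero, Matrix.cons_val_one, Function.comp_apply] at h7 h8
    exact hne (by rw [h7, h8, h6])
  · rw [hz]
    funext s t
    have hrel : (str N : Str S ar N) s (fun i => c (z (t i))) ↔
        ∀ᶠ F in (D : Filter (Finset U)), (str U : Str S ar U) s (fun i => z (t i) F) := by
      have := Ultraproduct.realize_formula_cast (u := D) (M := fun _ : Finset U => U)
        (Relations.formula (L := Lg S ar) (⟨s, rfl⟩ : (Lg S ar).Relations (ar s)) Term.var)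
        (fun i => z (t i))
      exact this
    obtain ⟨F₀, hF₀⟩ := hsupp t
    refine propext (hrel.trans ?_)
    have h9 : ∀ F, F₀ ⊆ F → ((str U : Str S ar U) s (fun i => z (t i) F) ↔ K s t) := by
      intro F hF
      obtain ⟨t', ht1, ht2⟩ := hF₀ F hF
      rw [ht2, ht1]
      exact iff_of_eq (congrFun (congrFun (ha2 F) s) t')
    constructor
    · intro h
      obtain ⟨F, hF1, hF2⟩ := (h.and (hD F₀)).exists
      exact (h9 F hF2).1 hF1
    · intro h
      filter_upwards [hD F₀] with F hF
      exact (h9 F hF).2 h

end Pool.Agent.H702R3.Gen
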