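import Pool.Agent.H702R3.Gen.QE

/-!
# Generic structures: the class and the extension axioms are first-order
-/

set_option autoImplicit false

open FirstOrder FirstOrder.Language FirstOrder.Language.Structure

namespace Pool.Agent.H702R3.Gen

variable {S : Type} {ar : S → ℕ}

/-- the diagram formula -/
theorem exists_diag [Finite S] {κ : Type} [Finite κ] (K : Str S ar κ) :
    ∃ ψ : (Lg S ar).Formula κ, ∀ (N : Type) [(Lg S ar).Structure N] (x : κ → N),
      ψ.Realize x ↔ (str N : Str S ar N).pull x = K := by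
  classical
  let rl : (p : Σ s : S, (Fin (ar s) → κ)) → (Lg S ar).Formula κ := fun p =>
    Relations.formula (L := Lg S ar) (⟨p.1, rfl⟩ : (Lg S ar).Relations (ar p.1))
      (fun i => Term.var (p.2 i))
  have hrl : ∀ p (N : Type) [(Lg S ar).Structure N] (x : κ → N),
      (rl p).Realize x ↔ (str N : Str S ar N) p.1 (x ∘ p.2) := by
    intro p N _ x
    simp only [rl]
    exact Iff.rfl
  refine ⟨Formula.iInf (fun p : Σ s : S, (Fin (ar s) → κ) => if K p.1 p.2 then rl p else (rl p).not),
    fun N _ x => ?_⟩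
  rw [Formula.iInf, Formula.Realize, BoundedFormula.realize_iInf]
  constructor
  · intro h
    funext s t
    have := h ⟨s, t⟩
    by_cases hk : K s t
    · simp only [hk, if_true] at this
      exact propext ⟨fun _ => hk, fun _ => (hrl ⟨s, t⟩ N x).1 this⟩
    · simp only [hk, if_false] at this
      have h2 : ¬ (rl ⟨s, t⟩).Realize x := by
        have h3 : (rl ⟨s, t⟩).not.Realize x := this
        rwa [Formula.realize_not] at h3
      exact propext ⟨fun h3 => absurd ((hrl ⟨s, t⟩ N x).2 h3) h2, fun h3 => absurd h3 hk⟩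
  · rintro rfl ⟨s, t⟩
    by_cases hk : (str N : Str S ar N).pull x s t
    · simp only [hk, if_true]
      exact (hrl ⟨s, t⟩ N x).2 hk
    · simp only [hk, if_false]
      change ((rl ⟨s, t⟩).not).Realize x
      rw [Formula.realize_not, hrl]
      exact hk

/-- the injectivity formula -/
theorem exists_inj (κ : Type) [Finite κ] :
    ∃ ψ : (Lg S ar).Formula κ, ∀ (N : Type) [(Lg S ar).Structure N] (x : κ → N),
      ψ.Realize x ↔ Function.Injective x := by
  classical
  refine ⟨Formula.iInf (fun p : {p : κ × κ // p.1 ≠ p.2} =>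
    (Term.equal (Term.var p.1.1) (Term.var p.1.2) : (Lg S ar).Formula κ).not), fun N _ x => ?_⟩
  rw [Formula.iInf, Formula.Realize, BoundedFormula.realize_iInf]
  constructor
  · intro h i j hij
    by_contra hne
    have h3 : (Term.equal (Term.var i) (Term.var j) : (Lg S ar).Formula κ).not.Realize x :=
      h ⟨(i, j), hne⟩
    rw [Formula.realize_not, Formula.realize_equal] at h3
    exact h3 hij
  · rintro h ⟨⟨i, j⟩, hne⟩
    change (Term.equal (Term.var i) (Term.var j) : (Lg S ar).Formula κ).not.Realize x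
    rw [Formula.realize_not, Formula.realize_equal]
    exact fun h3 => hne (h h3)

/-- the extension axioms are preserved by elementary equivalence -/
theorem ext_transfer [Finite S] {Good : ∀ {α : Type}, Str S ar α → Prop} {N N' : Type}
    [(Lg S ar).Structure N] [(Lg S ar).Structure N']
    (h : ∀ φ : (Lg S ar).Sentence, N ⊨ φ ↔ N' ⊨ φ) (hN : Ext Good (str N : Str S ar N)) :
    Ext Good (str N' : Str S ar N') := by
  intro k x hx K hK hKx
  obtain ⟨ψ, hψ⟩ := exists_diag (S := S) (ar := ar) (K.pull some)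
  obtain ⟨χ, hχ⟩ := exists_diag (S := S) (ar := ar) K
  obtain ⟨θ, hθ⟩ := exists_inj (S := S) (ar := ar) (Fin k)
  obtain ⟨η, hη⟩ := exists_inj (S := S) (ar := ar) (Option (Fin k))
  let g : Option (Fin k) → (Empty ⊕ Fin k) ⊕ Unit := fun o => o.elim (Sum.inr ()) (fun i => Sum.inl (Sum.inr i))
  let σ : (Lg S ar).Sentence := Formula.iAlls (Fin k)
    (((θ ⊓ ψ).relabel (Sum.inr : Fin k → Empty ⊕ Fin k)).imp
      (Formula.iExs Unit ((η ⊓ χ).relabel g)))
  have key : ∀ (A : Type) [(Lg S ar).Structure A], A ⊨ σ ↔ ∀ x : Fin k → A, Function.Injective x →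
      (str A : Str S ar A).pull x = K.pull some →
      ∃ b, Function.Injective (ocons x b) ∧ (str A : Str S ar A).pull (ocons x b) = K := by
    intro A _
    simp only [σ, Sentence.Realize, Formula.realize_iAlls, Formula.realize_imp,
      Formula.realize_relabel, Formula.realize_inf, Formula.realize_iExs, hψ, hχ, hθ, hη]
    refine forall_congr' fun x => ?_
    have e1 : (fun a => Sum.elim (default : Empty → A) x a) ∘ (Sum.inr : Fin k → Empty ⊕ Fin k) = x := by
      funext i; rfl
    have e2 : ∀ i : Unit → A, (Sum.elim (fun a => Sum.elim (default : Empty → A) x a) i) ∘ g =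
        ocons x (i ()) := by
      intro i
      funext o
      cases o <;> rfl
    rw [e1]
    simp only [e2]
    constructor
    · intro h hx hp
      obtain ⟨i, hi⟩ := h ⟨hx, hp⟩
      exact ⟨i (), hi⟩
    · rintro h ⟨hx, hp⟩
      obtain ⟨b, hb⟩ := h hx hp
      exact ⟨fun _ => b, hb⟩
  have hσ : N ⊨ σ := by
    rw [key N]
    intro x hx hp
    obtain ⟨b, hb1, hb2⟩ := hN k x hx K hK hp.symm
    exact ⟨b, ocons_injective hx hb1, hb2⟩
  obtain ⟨b, hb1, hb2⟩ := (key N').1 ((h σ).1 hσ) x hx hKx.symm
  refine ⟨b, fun i hi => ?_, hb2⟩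
  have := @hb1 (some i) none hi
  simp at this

/-- the class is preserved by elementary equivalence -/
theorem good_transfer [Finite S] {Good : ∀ {α : Type}, Str S ar α → Prop} (hG : IsAmalg Good)
    {N N' : Type}
    [(Lg S ar).Structure N] [(Lg S ar).Structure N']
    (h : ∀ φ : (Lg S ar).Sentence, N ⊨ φ ↔ N' ⊨ φ) (hN : Good (str N : Str S ar N)) :
    Good (str N' : Str S ar N') := by
  refine hG.fin _ fun k x hx => ?_
  obtain ⟨ψ, hψ⟩ := exists_diag (S := S) (ar := ar) ((str N' : Str S ar N').pull x)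
  obtain ⟨θ, hθ⟩ := exists_inj (S := S) (ar := ar) (Fin k)
  let σ : (Lg S ar).Sentence := Formula.iExs (Fin k)
    ((θ ⊓ ψ).relabel (Sum.inr : Fin k → Empty ⊕ Fin k))
  have key : ∀ (A : Type) [(Lg S ar).Structure A], A ⊨ σ ↔ ∃ z : Fin k → A,
      Function.Injective z ∧
      (str A : Str S ar A).pull z = (str N' : Str S ar N').pull x := by
    intro A _
    simp only [σ, Sentence.Realize, Formula.realize_relabel, Formula.realize_inf,
      Formula.realize_iExs, hψ, hθ]
    exact Iff.rfl
  have h1 : N' ⊨ σ := (key N').2 ⟨x, hx, rfl⟩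
  obtain ⟨z, hz, hzx⟩ := (key N).1 ((h σ).2 h1)
  rw [← hzx]
  exact hG.pull _ z hz hN

end Pool.Agent.H702R3.Gen
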